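import Mathlib
import Pool.Agent.R439.PLoc

set_option autoImplicit false

/-!
Definitions and statements for MP_20e244_nt (five congruences for trinomial coefficients).
-/

namespace Pool.Agent.R488.Tri

open Finset Pool.Agent.R439.PL

/-- Legendre polynomials, by the three term recurrence -/
def P (v : ℚ) : ℕ → ℚ
  | 0 => 1
  | 1 => v
  | (k + 2) => ((2 * (k : ℚ) + 3) * v * P v (k + 1) - ((k : ℚ) + 1) * P v k) / ((k : ℚ) + 2)

/-- the signs `1, 1, -1, -1, 1, 1, ...` -/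
def eps (k : ℕ) : ℚ := (-1) ^ (k / 2)

/-- coefficient of `v^(2i)` in `∑_{k ≤ 2n} eps k * P_k(v)` (for `i ≤ n`) -/
def ce (n i : ℕ) : ℚ := (-1) ^ i * ((2 * n + 2 * i + 1).factorial : ℚ) /
  ((4 * (i : ℚ) + 1) * 4 ^ n * (n - i).factorial * (n + i).factorial * (2 * i).factorial)

/-- coefficient of `v^(2i+1)` (for `i < n`) -/
def co (n i : ℕ) : ℚ := 2 * (-1) ^ i * ((2 * n + 2 * i + 1).factorial : ℚ) /
  ((4 * (i : ℚ) + 3) * 4 ^ n * (n - 1 - i).factorial * (n + i).factorial * (2 * i + 1).factorial)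

/-- TRI-LEG. Expansion of the alternating sum of Legendre polynomials in powers of `v`. -/
def StmtLeg : Prop := ∀ (v : ℚ) (n : ℕ), ∑ k ∈ range (2 * n + 1), eps k * P v k =
  ∑ i ∈ range (n + 1), ce n i * v ^ (2 * i) + ∑ i ∈ range n, co n i * v ^ (2 * i + 1)

/-- TRI-DEL. `P_k(3)` are the central Delannoy numbers. -/
def StmtDel : Prop := ∀ k : ℕ, P 3 k =
  ∑ i ∈ range (k + 1), (((k + i).choose (2 * i) * (2 * i).choose i : ℕ) : ℚ)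

/-- `∑_i C(p,2i+1) y^i` and `∑_i C(p,2i) y^i` -/
def OO (p : ℕ) (y : ℚ) : ℚ := ∑ i ∈ range (p + 1), (p.choose (2 * i + 1) : ℚ) * y ^ i
def EV (p : ℕ) (y : ℚ) : ℚ := ∑ i ∈ range (p + 1), (p.choose (2 * i) : ℚ) * y ^ i

/-- `∑_{i < p, i ≠ (p-1)/2} y^i/(2i+1)` -/
def LL (p : ℕ) (y : ℚ) : ℚ := ∑ i ∈ range p, if 2 * i + 1 = p then 0 else y ^ i / (2 * i + 1)

/-- `1` if `p = 1` modulo `3` and `-1` otherwise -/
def s3 (p : ℕ) : ℚ := if p % 3 = 1 then 1 else -1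

/-- TRI-LAM. `n = (p-1)/2`; modulo `p^2`. -/
def StmtLam : Prop := ∀ (p n : ℕ) [Fact p.Prime], p = 2 * n + 1 → 3 < p → ∀ y : ℤ,
  EQ p 2 ((y : ℚ) ^ n + p * LL p y) (OO p y - (y : ℚ) ^ n * (EV p y - 1))

/-- TRI-VAL. Values of the two sums and the resulting congruences. -/
def StmtVal : Prop := ∀ (p n : ℕ) [Fact p.Prime], p = 2 * n + 1 → 3 < p →
  EQ p 2 ((1 : ℚ) ^ n + p * LL p 1) 1 ∧
  EQ p 2 ((-1 : ℚ) ^ n + p * LL p (-1)) ((-1) ^ n) ∧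
  EQ p 2 ((-3 : ℚ) ^ n + p * LL p (-3)) (s3 p) ∧
  EQ p 2 ((4 : ℚ) ^ n + p * LL p 4) ((7 - 3 ^ p) / 4) ∧
  EQ p 1 ((-3 : ℚ) ^ n) (s3 p)

end Pool.Agent.R488.Tri
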