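import Mathlib
import Pool.Agent.R488.Tri.Defs

set_option autoImplicit false

/-!
Exact identities for MP_20e244_nt.
-/

namespace Pool.Agent.R488.Tri

open Finset Polynomial

/-! ### Generalized central trinomial coefficients -/

/-- the coefficient of `x^n` in `(x^2+bx+c)^n` -/
noncomputable def T (n : ℕ) (b c : ℤ) : ℤ := ((X ^ 2 + C b * X + C c : ℤ[X]) ^ n).coeff n

theorem T_eq (m : ℕ) (a s : ℤ) : T m (a + 2 * s) (s ^ 2) =
    ∑ i ∈ range (m + 1), (m.choose i : ℤ) * a ^ (m - i) * (s ^ i * ((2 * i).choose i : ℤ)) := by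
  have h1 : (X ^ 2 + C (a + 2 * s) * X + C (s ^ 2) : ℤ[X]) = (X + C s) ^ 2 + C a * X := by
    simp only [map_add, map_mul, map_pow]
    have : (C 2 : ℤ[X]) = 2 := rfl
    rw [this]; ring
  rw [T, h1, add_pow, finsetSum_coeff]
  refine sum_congr rfl fun i hi => ?_
  have hi' : i ≤ m := by have := mem_range.1 hi; omega
  have h2 : ((X + C s) ^ 2) ^ i * (C a * X) ^ (m - i) * ((m.choose i : ℕ) : ℤ[X]) =
      C (((m.choose i : ℕ) : ℤ) * a ^ (m - i)) * ((X + C s) ^ (2 * i) * X ^ (m - i)) := by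
    rw [mul_pow, ← pow_mul, map_mul, map_pow, map_natCast]; ring
  rw [h2, coeff_C_mul]
  have h3 : m = i + (m - i) := by omega
  have h4 : ((X + C s) ^ (2 * i) * X ^ (m - i) : ℤ[X]).coeff m = ((X + C s) ^ (2 * i)).coeff i := by
    conv_lhs => rw [h3]
    rw [show i + (m - i) - i = m - i by omega, coeff_mul_X_pow]
  rw [h4, coeff_X_add_C_pow]
  congr 3
  omega

/-! ### The Chebyshev polynomials `S` -/

noncomputable def V : ℕ → ℤ[X]
  | 0 => 1
  | 1 => X
  | (n + 2) => X * V (n + 1) - V n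

theorem V_even_odd (n : ℕ) :
    V (2 * n) = ∑ j ∈ range (n + 1), C ((-1) ^ (n + j) * ((n + j).choose (2 * j) : ℤ)) * X ^ (2 * j) ∧
    V (2 * n + 1) = ∑ j ∈ range (n + 1),
      C ((-1) ^ (n + j) * ((n + 1 + j).choose (2 * j + 1) : ℤ)) * X ^ (2 * j + 1) := by
  induction n with
  | zero =>
    constructor
    · simp [V]
    · simp [V]
  | succ n ih =>
    have h1 : V (2 * (n + 1)) = ∑ j ∈ range (n + 1 + 1),
        C ((-1) ^ (n + 1 + j) * ((n + 1 + j).choose (2 * j) : ℤ)) * X ^ (2 * j) := by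
      rw [show 2 * (n + 1) = 2 * n + 2 by ring, V, ih.1, ih.2, sum_range_succ' (n := n + 1),
        sum_range_succ' (n := n) (f := fun j => C ((-1) ^ (n + j) * ((n + j).choose (2 * j) : ℤ)) *
          X ^ (2 * j)), mul_sum, sum_range_succ (n := n), sum_range_succ (n := n)]
      have e1 : ∀ j ∈ range n, (C ((-1) ^ (n + 1 + (j + 1)) * ((n + 1 + (j + 1)).choose
          (2 * (j + 1)) : ℤ)) * X ^ (2 * (j + 1)) : ℤ[X]) =
          X * (C ((-1) ^ (n + j) * ((n + 1 + j).choose (2 * j + 1) : ℤ)) * X ^ (2 * j + 1)) -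
          C ((-1) ^ (n + (j + 1)) * ((n + (j + 1)).choose (2 * (j + 1)) : ℤ)) *
            X ^ (2 * (j + 1)) := by
        intro j _
        have a1 : ((n + 1 + (j + 1)).choose (2 * (j + 1)) : ℤ) =
            (n + 1 + j).choose (2 * j + 1) + (n + 1 + j).choose (2 * j + 2) := by
          rw [show n + 1 + (j + 1) = n + 1 + j + 1 by ring, show 2 * (j + 1) = 2 * j + 1 + 1 by ring,
            Nat.choose_succ_succ]; push_cast; ring
        rw [a1, show n + (j + 1) = n + 1 + j by ring, show 2 * (j + 1) = 2 * j + 2 by ring]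
        have a2 : ((-1 : ℤ)) ^ (n + 1 + (j + 1)) = (-1) ^ (n + j) := by
          rw [show n + 1 + (j + 1) = n + j + 2 by ring, pow_add]; ring
        have a3 : ((-1 : ℤ)) ^ (n + 1 + j) = -(-1) ^ (n + j) := by
          rw [show n + 1 + j = n + j + 1 by ring, pow_succ]; ring
        rw [a2, a3]
        simp only [map_add, map_mul, map_neg]
        ring
      rw [sum_congr rfl e1, sum_sub_distrib]
      have e2 : (C ((-1) ^ (n + 1 + (n + 1)) * ((n + 1 + (n + 1)).choose (2 * (n + 1)) : ℤ)) *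
          X ^ (2 * (n + 1)) : ℤ[X]) = X * (C ((-1) ^ (n + n) * ((n + 1 + n).choose (2 * n + 1) : ℤ)) *
            X ^ (2 * n + 1)) := by
        rw [show n + 1 + (n + 1) = 2 * (n + 1) by ring, Nat.choose_self,
          show n + 1 + n = 2 * n + 1 by ring, Nat.choose_self, ← two_mul, pow_mul, pow_mul]
        norm_num
        ring
      rw [e2]
      have a4 : ((-1 : ℤ)) ^ (n + 1 + 0) = -(-1) ^ (n + 0) := by
        rw [add_zero, add_zero, pow_succ]; ring
      rw [a4]
      simp only [mul_zero, Nat.choose_zero_right, Nat.cast_one, mul_one, pow_zero, map_neg]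
      ring
    refine ⟨h1, ?_⟩
    rw [show 2 * (n + 1) + 1 = 2 * n + 1 + 2 by ring, V, show 2 * n + 1 + 1 = 2 * (n + 1) by ring,
      h1, ih.2, mul_sum, sum_range_succ (n := n + 1), sum_range_succ (n := n + 1)]
    have e1 : ∀ j ∈ range (n + 1), (C ((-1) ^ (n + 1 + j) * ((n + 1 + 1 + j).choose
          (2 * j + 1) : ℤ)) * X ^ (2 * j + 1) : ℤ[X]) =
          X * (C ((-1) ^ (n + 1 + j) * ((n + 1 + j).choose (2 * j) : ℤ)) * X ^ (2 * j)) -
          C ((-1) ^ (n + j) * ((n + 1 + j).choose (2 * j + 1) : ℤ)) *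
            X ^ (2 * j + 1) := by
      intro j _
      have a1 : ((n + 1 + 1 + j).choose (2 * j + 1) : ℤ) =
          (n + 1 + j).choose (2 * j) + (n + 1 + j).choose (2 * j + 1) := by
        rw [show n + 1 + 1 + j = n + 1 + j + 1 by ring, Nat.choose_succ_succ]; push_cast; ring
      have a3 : ((-1 : ℤ)) ^ (n + 1 + j) = -(-1) ^ (n + j) := by
        rw [show n + 1 + j = n + j + 1 by ring, pow_succ]; ring
      rw [a1, a3]
      simp only [map_add, map_mul, map_neg]
      ring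
    rw [sum_congr rfl e1, sum_sub_distrib]
    have e2 : (C ((-1) ^ (n + 1 + (n + 1)) * ((n + 1 + 1 + (n + 1)).choose (2 * (n + 1) + 1) : ℤ)) *
          X ^ (2 * (n + 1) + 1) : ℤ[X]) = X * (C ((-1) ^ (n + 1 + (n + 1)) *
            ((n + 1 + (n + 1)).choose (2 * (n + 1)) : ℤ)) * X ^ (2 * (n + 1))) := by
      rw [show n + 1 + 1 + (n + 1) = 2 * (n + 1) + 1 by ring, Nat.choose_self,
        show n + 1 + (n + 1) = 2 * (n + 1) by ring, Nat.choose_self]
      ring
    rw [e2]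
    ring

theorem V_coeff (N : ℕ) : ∀ i : ℕ, ((V N).comp (X + C 2)).coeff i = ((N + 1 + i).choose (2 * i + 1) : ℤ) := by
  induction N using Nat.twoStepInduction with
  | zero =>
    intro i
    rw [V, one_comp, coeff_one]
    rcases Nat.eq_zero_or_pos i with h | h
    · subst h; simp
    · rw [if_neg (by omega), Nat.choose_eq_zero_of_lt (by omega)]; simp
  | one =>
    intro i
    rw [V, X_comp, coeff_add, coeff_X, coeff_C]
    rcases i with _ | _ | i
    · simp
    · simp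
    · rw [if_neg (by omega), if_neg (by omega), Nat.choose_eq_zero_of_lt (by omega)]; simp
  | more N ih1 ih2 =>
    intro i
    rw [V, sub_comp, mul_comp, X_comp, coeff_sub, ih1, add_mul, coeff_add, coeff_C_mul, ih2]
    rcases i with _ | i
    · rw [coeff_X_mul_zero]; simp; ring
    · rw [coeff_X_mul, ih2]
      have h1 : (N + 2 + 1 + (i + 1)).choose (2 * (i + 1) + 1) =
          (N + 1 + 1 + (i + 1)).choose (2 * i + 2) + (N + 1 + 1 + (i + 1)).choose (2 * i + 3) := by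
        rw [show N + 2 + 1 + (i + 1) = N + 1 + 1 + (i + 1) + 1 by ring,
          show 2 * (i + 1) + 1 = 2 * i + 2 + 1 by ring, Nat.choose_succ_succ]
      have h2 : (N + 1 + 1 + (i + 1)).choose (2 * i + 3) =
          (N + 1 + (i + 1)).choose (2 * i + 2) + (N + 1 + (i + 1)).choose (2 * i + 3) := by
        rw [show N + 1 + 1 + (i + 1) = N + 1 + (i + 1) + 1 by ring,
          show 2 * i + 3 = 2 * i + 2 + 1 by ring, Nat.choose_succ_succ]
      have h3 : (N + 1 + 1 + (i + 1)).choose (2 * i + 2) =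
          (N + 1 + 1 + i).choose (2 * i + 1) + (N + 1 + (i + 1)).choose (2 * i + 2) := by
        rw [show N + 1 + 1 + (i + 1) = N + 1 + (i + 1) + 1 by ring,
          show 2 * i + 2 = 2 * i + 1 + 1 by ring, Nat.choose_succ_succ,
          show N + 1 + (i + 1) = N + 1 + 1 + i by ring]
      rw [h1, show 2 * (i + 1) + 1 = 2 * i + 3 by ring, h2, h3]
      push_cast
      ring

/-- Lemma C -/
theorem lemC (n i : ℕ) : ∑ j ∈ range (n + 1), (-1 : ℤ) ^ (n + j) * ((n + j).choose (2 * j) : ℤ) *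
    (2 ^ (2 * j - i) * ((2 * j).choose i : ℤ)) = ((2 * n + 1 + i).choose (2 * i + 1) : ℤ) := by
  rw [← V_coeff, (V_even_odd n).1, ← coe_compRingHom_apply, map_sum, finsetSum_coeff]
  refine sum_congr rfl fun j _ => ?_
  rw [coe_compRingHom_apply, mul_comp, C_comp, pow_comp, X_comp, coeff_C_mul, coeff_X_add_C_pow]

/-- `W_m(x) = ∑ C(m,i) 2^(m-i) x^i C(2i,i)` -/
def W (m : ℕ) (x : ℤ) : ℤ := ∑ i ∈ range (m + 1), (m.choose i : ℤ) * 2 ^ (m - i) *
  (x ^ i * ((2 * i).choose i : ℤ))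

/-- `∑_j (-1)^(n+j) C(n+j,2j) W_{2j}(x) = ∑_i C(2n+1+i,2i+1) C(2i,i) x^i` -/
theorem W_sum (n : ℕ) (x : ℤ) : ∑ j ∈ range (n + 1), (-1 : ℤ) ^ (n + j) *
    ((n + j).choose (2 * j) : ℤ) * W (2 * j) x =
    ∑ i ∈ range (2 * n + 1), ((2 * n + 1 + i).choose (2 * i + 1) : ℤ) * ((2 * i).choose i : ℤ) * x ^ i := by
  have h1 : ∀ j ∈ range (n + 1), (-1 : ℤ) ^ (n + j) * ((n + j).choose (2 * j) : ℤ) * W (2 * j) x =
      ∑ i ∈ range (2 * n + 1), (-1 : ℤ) ^ (n + j) * ((n + j).choose (2 * j) : ℤ) *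
        (2 ^ (2 * j - i) * ((2 * j).choose i : ℤ)) * (((2 * i).choose i : ℤ) * x ^ i) := by
    intro j hj
    have hj' := mem_range.1 hj
    rw [W, mul_sum]
    rw [← sum_subset (range_subset_range.2 (show 2 * j + 1 ≤ 2 * n + 1 by omega))]
    · exact sum_congr rfl fun i _ => by ring
    · intro i _ hi
      rw [Nat.choose_eq_zero_of_lt (show 2 * j < i by
        have := mt mem_range.2 hi; omega)]
      simp
  rw [sum_congr rfl h1, sum_comm]
  refine sum_congr rfl fun i _ => ?_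
  rw [← sum_mul, lemC]
  ring

/-! ### Sums of `C(2j,j) C(j,i)/4^j` -/

theorem lemG (i N : ℕ) : (2 * (i : ℚ) + 1) * ∑ j ∈ range N, ((2 * j).choose j : ℚ) * (j.choose i : ℚ) /
    4 ^ j = 2 * ((N : ℚ) - i) * (N.choose i : ℚ) * ((2 * N).choose N : ℚ) / 4 ^ N := by
  induction N with
  | zero =>
    rcases Nat.eq_zero_or_pos i with h | h
    · subst h; simp
    · rw [Nat.choose_eq_zero_of_lt h]; simp
  | succ N ih =>
    rw [sum_range_succ, mul_add, ih]
    have h1 := Nat.succ_mul_centralBinom_succ N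
    rw [Nat.centralBinom, Nat.centralBinom] at h1
    have h2 : ((N : ℚ) + 1) * ((2 * (N + 1)).choose (N + 1) : ℚ) =
        2 * (2 * N + 1) * ((2 * N).choose N : ℚ) := by
      have : (((N + 1) * (2 * (N + 1)).choose (N + 1) : ℕ) : ℚ) =
        ((2 * (2 * N + 1) * (2 * N).choose N : ℕ) : ℚ) := by rw [h1]
      push_cast at this
      exact this
    have h3 : (((N + 1 : ℕ) : ℚ) - i) * ((N + 1).choose i : ℚ) = (N + 1) * (N.choose i : ℚ) := by
      rcases Nat.lt_or_ge (N + 1) i with h | h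
      · rw [Nat.choose_eq_zero_of_lt h, Nat.choose_eq_zero_of_lt (by omega)]; simp
      · have h4 := Nat.choose_mul_succ_eq N i
        have : ((N.choose i * (N + 1) : ℕ) : ℚ) = (((N + 1).choose i * (N + 1 - i) : ℕ) : ℚ) := by
          rw [h4]
        rw [Nat.cast_mul, Nat.cast_mul, Nat.cast_sub h] at this
        push_cast at this ⊢
        linear_combination (-1) * this
    have h5 : 2 * (((N + 1 : ℕ) : ℚ) - i) * ((N + 1).choose i : ℚ) * ((2 * (N + 1)).choose (N + 1) : ℚ) =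
        4 * (2 * N + 1) * (N.choose i : ℚ) * ((2 * N).choose N : ℚ) := by
      linear_combination 2 * ((2 * (N + 1)).choose (N + 1) : ℚ) * h3 + 2 * (N.choose i : ℚ) * h2
    rw [h5, pow_succ]
    have : (4 : ℚ) ^ N ≠ 0 := by positivity
    field_simp
    ring

/-! ### Sums of Delannoy numbers -/

theorem eps_even (n : ℕ) : eps (2 * n) = (-1) ^ n := by
  rw [eps]; congr 1; omega

theorem eps_odd (n : ℕ) : eps (2 * n + 1) = (-1) ^ n := by
  rw [eps]; congr 1; omega

/-- `A_n` -/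
def AA (n : ℕ) : ℚ := ∑ i ∈ range n, (-1) ^ (i + 1) * ((i : ℚ) + 1) * (P 3 (2 * i + 2) + P 3 (2 * i + 1))

theorem AE (n : ℕ) : 3 * AA n + ∑ k ∈ range (2 * n + 1), eps k * P 3 k =
    (-1) ^ n * (2 * n + 1) / 4 * (P 3 (2 * n) + P 3 (2 * n + 1)) := by
  induction n with
  | zero => simp [AA, eps, P]; norm_num
  | succ n ih =>
    have h1 : AA (n + 1) = AA n + (-1) ^ (n + 1) * ((n : ℚ) + 1) * (P 3 (2 * n + 2) + P 3 (2 * n + 1)) := by
      rw [AA, sum_range_succ, ← AA]
    have h2 : ∑ k ∈ range (2 * (n + 1) + 1), eps k * P 3 k = ∑ k ∈ range (2 * n + 1), eps k * P 3 k +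
        (-1) ^ n * P 3 (2 * n + 1) + (-1) ^ (n + 1) * P 3 (2 * n + 2) := by
      rw [show 2 * (n + 1) + 1 = 2 * n + 1 + 1 + 1 by ring, sum_range_succ, sum_range_succ,
        eps_odd, show 2 * n + 1 + 1 = 2 * (n + 1) by ring, eps_even]
    have r1 : P 3 (2 * n + 2) = ((2 * ((2 * n : ℕ) : ℚ) + 3) * 3 * P 3 (2 * n + 1) -
        (((2 * n : ℕ) : ℚ) + 1) * P 3 (2 * n)) / (((2 * n : ℕ) : ℚ) + 2) := by rw [P]
    have r2 : P 3 (2 * n + 1 + 2) = ((2 * ((2 * n + 1 : ℕ) : ℚ) + 3) * 3 * P 3 (2 * n + 1 + 1) -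
        (((2 * n + 1 : ℕ) : ℚ) + 1) * P 3 (2 * n + 1)) / (((2 * n + 1 : ℕ) : ℚ) + 2) := by rw [P]
    rw [h1, h2, show 2 * (n + 1) + 1 = 2 * n + 1 + 2 by ring, show 2 * (n + 1) = 2 * n + 2 by ring]
    have r1' : (2 * (n : ℚ) + 2) * P 3 (2 * n + 2) = (4 * n + 3) * 3 * P 3 (2 * n + 1) -
        (2 * n + 1) * P 3 (2 * n) := by
      rw [r1]; push_cast
      have : (2 * (n : ℚ) + 2) ≠ 0 := by positivity
      field_simp
      ring
    have r2' : (2 * (n : ℚ) + 3) * P 3 (2 * n + 1 + 2) = (4 * n + 5) * 3 * P 3 (2 * n + 2) -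
        (2 * n + 2) * P 3 (2 * n + 1) := by
      rw [r2, show 2 * n + 1 + 1 = 2 * n + 2 by ring]; push_cast
      have : (2 * (n : ℚ) + 1 + 2) ≠ 0 := by positivity
      field_simp
      ring
    rw [pow_succ]
    push_cast
    generalize P 3 (2 * n + 1 + 2) = a at r2' ⊢
    generalize P 3 (2 * n + 2) = b at r1' r2' ⊢
    generalize P 3 (2 * n + 1) = c at r1' r2' ih ⊢
    generalize P 3 (2 * n) = d at r1' ih ⊢
    linear_combination ih + (-1) ^ n / 4 * r1' + (-1) ^ n / 4 * r2'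

theorem hockey (i m : ℕ) : ∑ k ∈ range (m + 1), ((k + i).choose (2 * i) : ℚ) =
    ((m + 1 + i).choose (2 * i + 1) : ℚ) := by
  induction m with
  | zero =>
    rcases Nat.eq_zero_or_pos i with h | h
    · subst h; simp
    · rw [sum_range_one, Nat.choose_eq_zero_of_lt (by omega), Nat.choose_eq_zero_of_lt (by omega)]
  | succ m ih =>
    rw [sum_range_succ, ih, show m + 1 + 1 + i = m + 1 + i + 1 by ring, Nat.choose_succ_succ]
    push_cast
    ring

/-- sums of Delannoy numbers -/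
theorem delta (hd : StmtDel) (m : ℕ) : ∑ k ∈ range (m + 1), P 3 k =
    ∑ i ∈ range (m + 1), ((m + 1 + i).choose (2 * i + 1) : ℚ) * ((2 * i).choose i : ℚ) := by
  have h1 : ∀ k ∈ range (m + 1), P 3 k = ∑ i ∈ range (m + 1), ((k + i).choose (2 * i) : ℚ) *
      ((2 * i).choose i : ℚ) := by
    intro k hk
    have hk' := mem_range.1 hk
    rw [hd k, ← sum_subset (range_subset_range.2 (show k + 1 ≤ m + 1 by omega))]
    · exact sum_congr rfl fun i _ => by push_cast; ring
    · intro i _ hi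
      rw [Nat.choose_eq_zero_of_lt (show k + i < 2 * i by have := mt mem_range.2 hi; omega)]
      simp
  rw [sum_congr rfl h1, sum_comm]
  exact sum_congr rfl fun i _ => by rw [← sum_mul, hockey]

/-- partial sums with weights `1/(j+1)` -/
theorem catal (t : ℕ → ℚ) (n : ℕ) : (n : ℚ) * (n + 1) * ∑ j ∈ range (n + 1),
    ((n + j).choose (2 * j) : ℚ) * t j / ((j : ℚ) + 1) =
    ∑ i ∈ range n, ((i : ℚ) + 1) * (∑ j ∈ range (i + 2), ((i + 1 + j).choose (2 * j) : ℚ) * t j +
      ∑ j ∈ range (i + 1), ((i + j).choose (2 * j) : ℚ) * t j) := by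
  induction n with
  | zero => simp
  | succ n ih =>
    rw [sum_range_succ (fun i => ((i : ℚ) + 1) * (∑ j ∈ range (i + 2), ((i + 1 + j).choose (2 * j) : ℚ) *
      t j + ∑ j ∈ range (i + 1), ((i + j).choose (2 * j) : ℚ) * t j)), ← ih]
    have h0 : ∀ f : ℕ → ℚ, ∑ j ∈ range (n + 1), ((n + j).choose (2 * j) : ℚ) * f j =
        ∑ j ∈ range (n + 2), ((n + j).choose (2 * j) : ℚ) * f j := by
      intro f
      rw [sum_range_succ _ (n + 1), Nat.choose_eq_zero_of_lt (show n + (n + 1) < 2 * (n + 1) by omega)]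
      simp
    have h1 : ∑ j ∈ range (n + 1), ((n + j).choose (2 * j) : ℚ) * t j / ((j : ℚ) + 1) =
        ∑ j ∈ range (n + 2), ((n + j).choose (2 * j) : ℚ) * t j / ((j : ℚ) + 1) := by
      have := h0 fun j => t j / ((j : ℚ) + 1)
      rw [sum_congr rfl fun j _ => mul_div_assoc _ _ _, this]
      exact sum_congr rfl fun j _ => (mul_div_assoc _ _ _).symm
    rw [h1, h0 t, mul_sum, mul_sum, ← sum_add_distrib, mul_sum, ← sum_add_distrib]
    refine sum_congr rfl fun j hj => ?_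
    have hj' := mem_range.1 hj
    have h2 := Nat.choose_mul_succ_eq (n + j) (2 * j)
    have h3 : (n + 1 + j) * ((n + j).choose (2 * j) : ℚ) = ((n : ℚ) + 1 - j) *
        ((n + 1 + j).choose (2 * j) : ℚ) := by
      rcases Nat.lt_or_ge (n + 1) j with h | h
      · omega
      · have : (((n + j).choose (2 * j) * (n + j + 1) : ℕ) : ℚ) =
            (((n + j + 1).choose (2 * j) * (n + j + 1 - 2 * j) : ℕ) : ℚ) := by rw [h2]
        rw [Nat.cast_mul, Nat.cast_mul, Nat.cast_sub (by omega)] at this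
        rw [show n + 1 + j = n + j + 1 by ring]
        push_cast at this ⊢
        linear_combination this
    have h4 : (j : ℚ) + 1 ≠ 0 := by positivity
    push_cast
    field_simp
    linear_combination (-(t j)) * h3

theorem catal_AA (hd : StmtDel) (n : ℕ) : (n : ℚ) * (n + 1) * ∑ j ∈ range (n + 1),
    ((n + j).choose (2 * j) : ℚ) * ((-1) ^ j * (W (2 * j) 1 : ℚ)) / ((j : ℚ) + 1) = AA n := by
  rw [catal, AA]
  have h1 : ∀ i : ℕ, ∑ j ∈ range (i + 1), ((i + j).choose (2 * j) : ℚ) * ((-1) ^ j * (W (2 * j) 1 : ℚ)) =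
      (-1) ^ i * ∑ k ∈ range (2 * i + 1), P 3 k := by
    intro i
    rw [delta hd]
    have h2 := W_sum i 1
    have h3 : ((∑ j ∈ range (i + 1), (-1 : ℤ) ^ (i + j) * ((i + j).choose (2 * j) : ℤ) * W (2 * j) 1 : ℤ) : ℚ)
        = ((∑ k ∈ range (2 * i + 1), ((2 * i + 1 + k).choose (2 * k + 1) : ℤ) *
          ((2 * k).choose k : ℤ) * 1 ^ k : ℤ) : ℚ) := by rw [h2]
    push_cast at h3
    simp only [one_pow, mul_one] at h3
    rw [← h3, mul_sum]
    refine sum_congr rfl fun j _ => ?_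
    have h4 : ((-1 : ℚ)) ^ i * (-1) ^ i = 1 := by rw [← mul_pow]; norm_num
    rw [pow_add]
    linear_combination (-((-1) ^ j * ((i + j).choose (2 * j) : ℚ) * (W (2 * j) 1 : ℚ))) * h4
  refine sum_congr rfl fun i _ => ?_
  have h2 := h1 (i + 1)
  rw [show i + 1 + 1 = i + 2 by ring] at h2
  rw [h2, h1 i, show 2 * (i + 1) + 1 = 2 * i + 1 + 1 + 1 by ring, sum_range_succ _ (2 * i + 1 + 1),
    sum_range_succ _ (2 * i + 1), pow_succ]
  ring

end Pool.Agent.R488.Tri
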