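import Mathlib
import Pool.Agent.R488.Tri.Exact
import Pool.Agent.R488.AZ.PAdic

set_option autoImplicit false

/-!
Congruences modulo `p^2` for MP_20e244_nt, first part.
-/

namespace Pool.Agent.R488.Tri

open Finset Pool.Agent.R439.PL Pool.Agent.R439.PL.S4

variable {p n : ℕ} [hp : Fact p.Prime]

theorem neg_mem' (k : ℕ) : ((-1 : ℚ)) ^ k ∈ Zp p := pow_mem (neg_mem (one_mem _)) _

/-! ### Binomial coefficients -/

/-- `C(p-1,k) = (-1)^k` modulo `p` -/
theorem choose_pm1 (k : ℕ) (hk : k < p) : EQ p 1 ((p - 1).choose k : ℚ) ((-1) ^ k) := by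
  induction k with
  | zero => simpa using EQ.refl (k := 1) (one_mem (Zp p))
  | succ k ih =>
    have ih := ih (by omega)
    have h1 : (((p - 1).choose (k + 1) : ℕ) : ℚ) + ((p - 1).choose k : ℕ) = (p.choose (k + 1) : ℕ) := by
      obtain ⟨q, hq⟩ : ∃ q, p = q + 1 := ⟨p - 1, by omega⟩
      rw [hq, Nat.add_sub_cancel, Nat.choose_succ_succ]; push_cast; ring
    have h2 : p ∣ p.choose (k + 1) := hp.out.dvd_choose_self (by omega) hk
    obtain ⟨c, hc⟩ := h2
    refine ⟨nat_mem _, neg_mem' _, ?_⟩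
    have h3 : (((p - 1).choose (k + 1) : ℕ) : ℚ) - (-1) ^ (k + 1) = p * c -
        (((p - 1).choose k : ℚ) - (-1) ^ k) := by
      have : ((p.choose (k + 1) : ℕ) : ℚ) = p * c := by rw [hc]; push_cast; ring
      rw [pow_succ]
      linear_combination h1 + this
    rw [h3]
    exact ((I_p (p := p)).mulR (nat_mem c)).sub ih.2.2

theorem I_nat {a : ℕ} (h : p ∣ a) : I p 1 (a : ℚ) := by
  obtain ⟨c, rfl⟩ := h
  exact ⟨(c : ℚ), nat_mem c, by push_cast; ring⟩

/-- `C(2p,p) = 2` modulo `p^2` -/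
theorem choose_2p : EQ p 2 ((2 * p).choose p : ℚ) 2 := by
  have h1 := Nat.sum_range_choose_sq p
  obtain ⟨q, hq⟩ : ∃ q, p = q + 1 := ⟨p - 1, by have := hp.out.pos; omega⟩
  refine ⟨nat_mem _, n2, ?_⟩
  have h2 : ((2 * p).choose p : ℚ) - 2 = ∑ i ∈ range q, ((p.choose (i + 1) : ℕ) : ℚ) ^ 2 := by
    have h3 : (((2 * p).choose p : ℕ) : ℚ) = ((∑ i ∈ range (p + 1), p.choose i ^ 2 : ℕ) : ℚ) := by
      rw [h1]
    rw [h3, sum_range_succ, Nat.choose_self]
    have h4 : ∑ i ∈ range p, p.choose i ^ 2 = ∑ i ∈ range q, p.choose (i + 1) ^ 2 + 1 := by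
      conv_lhs => rw [show range p = range (q + 1) by rw [← hq]]
      rw [sum_range_succ']; simp
    rw [h4]; push_cast; ring
  rw [h2]
  refine I.sum fun i hi => ?_
  have hi' := mem_range.1 hi
  have h3 := I_nat (p := p) (hp.out.dvd_choose_self (show i + 1 ≠ 0 by omega) (show i + 1 < p by omega))
  rw [sq]
  exact h3.mul h3

/-- the half-range transformation -/
def pro (p j : ℕ) : ℚ := ∏ i ∈ range j, (1 - (p : ℚ) ^ 2 / (2 * (i : ℚ) + 1) ^ 2)

theorem halfc_exact (hpn : p = 2 * n + 1) (j : ℕ) (hj : j ≤ n) : (-16 : ℚ) ^ j * ((n + j).choose (2 * j) : ℚ) =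
    ((2 * j).choose j : ℚ) * pro p j := by
  have hpq : (p : ℚ) = 2 * n + 1 := by exact_mod_cast hpn
  induction j with
  | zero => simp [pro]
  | succ j ih =>
    have ih := ih (by omega)
    have h1 := Nat.succ_mul_centralBinom_succ j
    rw [Nat.centralBinom, Nat.centralBinom] at h1
    have h2 : ((j : ℚ) + 1) * ((2 * (j + 1)).choose (j + 1) : ℚ) =
        2 * (2 * j + 1) * ((2 * j).choose j : ℚ) := by
      have : (((j + 1) * (2 * (j + 1)).choose (j + 1) : ℕ) : ℚ) =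
        ((2 * (2 * j + 1) * (2 * j).choose j : ℕ) : ℚ) := by rw [h1]
      push_cast at this
      exact this
    -- C(n+j+1,2j+2)
    have h3 := Nat.choose_succ_right_eq (n + (j + 1)) (2 * j + 1)
    have h4 := Nat.add_one_mul_choose_eq (n + j) (2 * j)
    have h5 : (2 * (j : ℚ) + 2) * ((n + (j + 1)).choose (2 * (j + 1)) : ℚ) =
        ((n : ℚ) - j) * ((n + (j + 1)).choose (2 * j + 1) : ℚ) := by
      have : (((n + (j + 1)).choose (2 * j + 1 + 1) * (2 * j + 1 + 1) : ℕ) : ℚ) =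
        (((n + (j + 1)).choose (2 * j + 1) * (n + (j + 1) - (2 * j + 1)) : ℕ) : ℚ) := by rw [h3]
      rw [Nat.cast_mul, Nat.cast_mul, Nat.cast_sub (by omega)] at this
      rw [show 2 * (j + 1) = 2 * j + 1 + 1 by ring]
      push_cast at this ⊢
      linear_combination this
    have h6 : (2 * (j : ℚ) + 1) * ((n + (j + 1)).choose (2 * j + 1) : ℚ) =
        ((n : ℚ) + j + 1) * ((n + j).choose (2 * j) : ℚ) := by
      have : (((n + j + 1) * (n + j).choose (2 * j) : ℕ) : ℚ) =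
        (((n + j + 1).choose (2 * j + 1) * (2 * j + 1) : ℕ) : ℚ) := by rw [h4]
      rw [show n + (j + 1) = n + j + 1 by ring]
      push_cast at this ⊢
      linear_combination (-1) * this
    rw [pro, prod_range_succ, ← pro]
    have a1 : (j : ℚ) + 1 ≠ 0 := by positivity
    have a2 : 2 * (j : ℚ) + 1 ≠ 0 := by positivity
    have e1 : ((n + (j + 1)).choose (2 * (j + 1)) : ℚ) = ((n : ℚ) - j) * ((n : ℚ) + j + 1) *
        ((n + j).choose (2 * j) : ℚ) / ((2 * j + 1) * (2 * j + 2)) := by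
      have a3 : 2 * (j : ℚ) + 2 ≠ 0 := by positivity
      rw [eq_div_iff (mul_ne_zero a2 a3)]
      linear_combination (2 * (j : ℚ) + 1) * h5 + ((n : ℚ) - j) * h6
    have e2 : ((2 * (j + 1)).choose (j + 1) : ℚ) = 2 * (2 * j + 1) * ((2 * j).choose j : ℚ) / (j + 1) := by
      rw [eq_div_iff a1]; linear_combination h2
    rw [e1, e2, pow_succ, hpq]
    have a3 : 2 * (j : ℚ) + 2 ≠ 0 := by positivity
    field_simp
    linear_combination (2 * (-4) * ((2 : ℚ) * n + 1 - (2 * j + 1)) * ((2 : ℚ) * n + 1 + (2 * j + 1)) * (1/2)) * ih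

theorem pro_eq (hpn : p = 2 * n + 1) {j : ℕ} (hj : j ≤ n) : EQ p 2 (pro p j) 1 := by
  have h : EQ p 2 (pro p j) (∏ _i ∈ range j, (1 : ℚ)) := by
    refine EQ.prod fun i hi => ?_
    have hi' := mem_range.1 hi
    have hu := U_nat (p := p) (k := 2 * i + 1) (by omega) (by omega)
    have h1 : I p 2 ((p : ℚ) ^ 2 / (2 * (i : ℚ) + 1) ^ 2) := by
      refine ⟨(((2 * i + 1 : ℕ) : ℚ) ^ 2)⁻¹, (hu.pow 2).2.2, ?_⟩
      push_cast; rfl
    exact ⟨sub_mem (one_mem _) h1.mem, one_mem _, by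
      have : 1 - (p : ℚ) ^ 2 / (2 * (i : ℚ) + 1) ^ 2 - 1 = -((p : ℚ) ^ 2 / (2 * (i : ℚ) + 1) ^ 2) := by ring
      rw [this]; exact h1.neg⟩
  rwa [prod_const_one] at h

theorem halfc (hpn : p = 2 * n + 1) {j : ℕ} (hj : j ≤ n) :
    EQ p 2 ((2 * j).choose j : ℚ) ((-16) ^ j * ((n + j).choose (2 * j) : ℚ)) := by
  rw [halfc_exact hpn j hj]
  have h := (EQ.refl (k := 2) (nat_mem (p := p) ((2 * j).choose j))).mul (pro_eq hpn hj).symm
  rwa [mul_one] at h

/-! ### Sums with `1/(2i+1)` -/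

theorem two_add_one_U (hpn : p = 2 * n + 1) {i : ℕ} (hi : i < p) (h : 2 * i + 1 ≠ p) :
    U p (2 * (i : ℚ) + 1) := by
  have := U_nat' (p := p) (k := 2 * i + 1) (by
    rintro ⟨c, hc⟩
    have h1 : c < 2 := by
      by_contra h2
      have : p * 2 ≤ p * c := Nat.mul_le_mul_left p (by omega)
      omega
    interval_cases c <;> omega)
  push_cast at this
  exact this

theorem LL_mem (hpn : p = 2 * n + 1) {y : ℚ} (hy : y ∈ Zp p) : LL p y ∈ Zp p := by
  refine sum_mem fun i hi => ?_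
  split_ifs with h
  · exact zero_mem _
  · rw [div_eq_mul_inv]
    exact mul_mem (pow_mem hy _) (two_add_one_U hpn (mem_range.1 hi) h).2.2

/-- the general sum lemma -/
theorem sum_lem (hpn : p = 2 * n + 1) {f g : ℕ → ℚ} {s y : ℚ} (hy : y ∈ Zp p)
    (hs : s ∈ Zp p) (h1 : ∀ i < p, (2 * (i : ℚ) + 1) * f i = p * g i)
    (h2 : ∀ i < p, EQ p 1 (g i) (s * (-1) ^ i)) :
    EQ p 2 (∑ i ∈ range p, f i * y ^ i) (g n * y ^ n + s * (p * LL p (-y))) := by
  have h3 : g n * y ^ n + s * (p * LL p (-y)) = ∑ i ∈ range p, (if 2 * i + 1 = p then g n * y ^ n else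
      s * (p * ((-y) ^ i / (2 * i + 1)))) := by
    have h4 : ∀ i ∈ range p, (if 2 * i + 1 = p then g n * y ^ n else
        s * (p * ((-y) ^ i / (2 * (i : ℚ) + 1)))) = (if i = n then g n * y ^ n else 0) +
        s * (p * (if 2 * i + 1 = p then 0 else (-y) ^ i / (2 * (i : ℚ) + 1))) := by
      intro i _
      by_cases h : 2 * i + 1 = p
      · rw [if_pos h, if_pos (show i = n by omega), if_pos h]; ring
      · rw [if_neg h, if_neg (show ¬ i = n by omega), if_neg h]; ring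
    rw [sum_congr rfl h4, sum_add_distrib, ← mul_sum, ← mul_sum, sum_ite_eq', if_pos (mem_range.2 (by omega)),
      LL]
  rw [h3]
  refine EQ.sum fun i hi => ?_
  have hi' := mem_range.1 hi
  have g1 := h1 i hi'
  have g2 := h2 i hi'
  by_cases h : 2 * i + 1 = p
  · rw [if_pos h]
    have hin : i = n := by omega
    subst hin
    have : f i = g i := by
      have hpq : (2 * (i : ℚ) + 1) = p := by exact_mod_cast h
      rw [hpq] at g1
      exact mul_left_cancel₀ p_ne g1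
    rw [this]
    exact EQ.refl (mul_mem g2.1 (pow_mem hy _))
  · rw [if_neg h]
    have hu := two_add_one_U hpn hi' h
    have e1 : f i * y ^ i = p * g i / (2 * i + 1) * y ^ i := by
      rw [← g1]
      have := hu.1
      field_simp
    have mp : (p : ℚ) ∈ Zp p := p_mem
    have m1 : (-y) ^ i / (2 * (i : ℚ) + 1) ∈ Zp p := by
      rw [div_eq_mul_inv]; exact mul_mem (pow_mem (neg_mem hy) _) hu.2.2
    refine ⟨?_, mul_mem hs (mul_mem mp m1), ?_⟩
    · rw [e1, div_eq_mul_inv]; exact mul_mem (mul_mem (mul_mem mp g2.1) hu.2.2) (pow_mem hy _)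
    · have e2 : f i * y ^ i - s * (p * ((-y) ^ i / (2 * (i : ℚ) + 1))) =
          (p * (g i - s * (-1) ^ i)) * ((2 * (i : ℚ) + 1)⁻¹ * y ^ i) := by
        rw [e1, neg_pow y i, div_eq_mul_inv, div_eq_mul_inv]; ring
      rw [e2]
      exact ((I_p (p := p)).mul g2.2.2).mulR (mul_mem hu.2.2 (pow_mem hy _))

/-! ### The sum `∑ C(p+i,2i+1) C(2i,i) x^i` -/

theorem theta_exact (i : ℕ) (hi : i < p) : (2 * (i : ℚ) + 1) * (((p + i).choose (2 * i + 1) : ℚ) *
    ((2 * i).choose i : ℚ)) = p * ((-1) ^ i * prs p i) := by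
  induction i with
  | zero => simp [prs]
  | succ i ih =>
    have ih := ih (by omega)
    have h1 := Nat.succ_mul_centralBinom_succ i
    rw [Nat.centralBinom, Nat.centralBinom] at h1
    have h2 : ((i : ℚ) + 1) * ((2 * (i + 1)).choose (i + 1) : ℚ) =
        2 * (2 * i + 1) * ((2 * i).choose i : ℚ) := by
      have : (((i + 1) * (2 * (i + 1)).choose (i + 1) : ℕ) : ℚ) =
        ((2 * (2 * i + 1) * (2 * i).choose i : ℕ) : ℚ) := by rw [h1]
      push_cast at this
      exact this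
    have h3 := Nat.choose_succ_right_eq (p + i) (2 * i + 1)
    have h4 := Nat.add_one_mul_choose_eq (p + i) (2 * i + 2)
    have h5 : (2 * (i : ℚ) + 2) * ((p + i).choose (2 * i + 2) : ℚ) =
        ((p : ℚ) - i - 1) * ((p + i).choose (2 * i + 1) : ℚ) := by
      have : (((p + i).choose (2 * i + 1 + 1) * (2 * i + 1 + 1) : ℕ) : ℚ) =
        (((p + i).choose (2 * i + 1) * (p + i - (2 * i + 1)) : ℕ) : ℚ) := by rw [h3]
      rw [Nat.cast_mul, Nat.cast_mul, Nat.cast_sub (by omega)] at this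
      push_cast at this ⊢
      linear_combination this
    have h6 : (2 * (i : ℚ) + 3) * ((p + (i + 1)).choose (2 * (i + 1) + 1) : ℚ) =
        ((p : ℚ) + i + 1) * ((p + i).choose (2 * i + 2) : ℚ) := by
      have : (((p + i + 1) * (p + i).choose (2 * i + 2) : ℕ) : ℚ) =
        (((p + i + 1).choose (2 * i + 2 + 1) * (2 * i + 2 + 1) : ℕ) : ℚ) := by rw [h4]
      rw [show p + (i + 1) = p + i + 1 by ring, show 2 * (i + 1) + 1 = 2 * i + 2 + 1 by ring]
      push_cast at this ⊢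
      linear_combination (-1) * this
    rw [prs, prod_range_succ, ← prs, pow_succ]
    have a1 : (i : ℚ) + 1 ≠ 0 := by positivity
    apply mul_left_cancel₀ (pow_ne_zero 2 a1)
    push_cast
    have e1 : ((i : ℚ) + 1) ^ 2 * ((2 * ((i : ℚ) + 1) + 1) * (((p + (i + 1)).choose (2 * (i + 1) + 1) : ℚ) *
        ((2 * (i + 1)).choose (i + 1) : ℚ))) = ((p : ℚ) ^ 2 - (i + 1) ^ 2) * ((2 * (i : ℚ) + 1) *
          (((p + i).choose (2 * i + 1) : ℚ) * ((2 * i).choose i : ℚ))) := by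
      linear_combination ((i : ℚ) + 1) * (2 * (i : ℚ) + 3) * ((p + (i + 1)).choose (2 * (i + 1) + 1) : ℚ) * h2 +
        2 * ((i : ℚ) + 1) * (2 * i + 1) * ((2 * i).choose i : ℚ) * h6 +
        ((p : ℚ) + i + 1) * (2 * i + 1) * ((2 * i).choose i : ℚ) * h5
    rw [e1, ih]
    field_simp
    ring

theorem theta (hpn : p = 2 * n + 1) (x : ℤ) : EQ p 2
    (∑ i ∈ range p, (((p + i).choose (2 * i + 1) : ℚ) * ((2 * i).choose i : ℚ)) * (x : ℚ) ^ i)
    ((-(x : ℚ)) ^ n + p * LL p (-x)) := by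
  have h1 := sum_lem (p := p) (n := n) hpn (f := fun i => ((p + i).choose (2 * i + 1) : ℚ) *
    ((2 * i).choose i : ℚ)) (g := fun i => (-1) ^ i * prs p i) (s := 1) (y := (x : ℚ)) (int_mem x)
    (one_mem _) (fun i hi => theta_exact i hi) (fun i hi => by
      have := (EQ.refl (neg_mem' (p := p) i)).mul ((prs_eq (p := p) (s := i) hi).mono (by norm_num : 1 ≤ 2))
      rw [mul_one] at this
      rw [one_mul]
      exact this)
  refine h1.trans ?_
  rw [one_mul]
  refine EQ.add ?_ (EQ.refl (mul_mem p_mem (LL_mem hpn (neg_mem (int_mem x)))))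
  have h2 := ((EQ.refl (k := 2) (neg_mem' (p := p) n)).mul (prs_eq (p := p) (s := n) (by omega))).mul
    (EQ.refl (pow_mem (int_mem (p := p) x) n))
  rw [mul_one, ← mul_pow] at h2
  have e : (-1 * (x : ℚ)) ^ n = (-(x : ℚ)) ^ n := by rw [neg_one_mul]
  rwa [e] at h2

end Pool.Agent.R488.Tri
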