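import Pool.Agent.R488.Tri.Defs

set_option autoImplicit false

namespace Pool.Agent.R488.Tri

open Finset

/-- terms of the Delannoy sum -/
def dd (k i : ℕ) : ℚ := ((k + i).choose i : ℚ) * (k.choose i : ℚ)

theorem dd_eq (k i : ℕ) :
    (((k + i).choose (2 * i) * (2 * i).choose i : ℕ) : ℚ) = dd k i := by
  unfold dd
  rcases Nat.lt_or_ge k i with h | h
  · rw [Nat.choose_eq_zero_of_lt (show k + i < 2 * i by omega), Nat.choose_eq_zero_of_lt h]
    simp
  · have := Nat.choose_mul (n := k + i) (k := 2 * i) (s := i) (by omega)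
    rw [this]
    have h1 : k + i - i = k := by omega
    have h2 : 2 * i - i = i := by omega
    rw [h1, h2]
    push_cast
    ring

theorem dd_zero {k i : ℕ} (h : k < i) : dd k i = 0 := by
  unfold dd
  rw [Nat.choose_eq_zero_of_lt h]; simp

theorem aux1 (k i : ℕ) : ((k : ℚ) + 1) * ((k + 1 + i).choose i : ℚ) =
    ((k : ℚ) + i + 1) * ((k + i).choose i : ℚ) := by
  have h := Nat.choose_mul_succ_eq (k + i) i
  have h1 : k + i + 1 - i = k + 1 := by omega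
  rw [h1] at h
  have h2 : ((k + i).choose i : ℚ) * ((k : ℚ) + i + 1) =
      ((k + i + 1).choose i : ℚ) * ((k : ℚ) + 1) := by exact_mod_cast h
  have h3 : k + 1 + i = k + i + 1 := by omega
  rw [h3]
  linarith

theorem aux2 (k i : ℕ) : ((k : ℚ) + 1) * (k.choose i : ℚ) =
    ((k : ℚ) + 1 - i) * ((k + 1).choose i : ℚ) := by
  rcases Nat.lt_or_ge (k + 1) i with h | h
  · rw [Nat.choose_eq_zero_of_lt h, Nat.choose_eq_zero_of_lt (show k < i by omega)]; simp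
  · have h1 := Nat.choose_mul_succ_eq k i
    have h2 : (k.choose i : ℚ) * ((k : ℚ) + 1) =
        ((k + 1).choose i : ℚ) * ((k + 1 - i : ℕ) : ℚ) := by exact_mod_cast h1
    rw [Nat.cast_sub h] at h2
    push_cast at h2
    linarith

theorem aux3 (n i : ℕ) : ((i : ℚ) + 1) * ((n + 1).choose (i + 1) : ℚ) =
    ((n : ℚ) + 1) * (n.choose i : ℚ) := by
  have h := Nat.add_one_mul_choose_eq n i
  have h2 : ((n : ℚ) + 1) * (n.choose i : ℚ) =
      ((n + 1).choose (i + 1) : ℚ) * ((i : ℚ) + 1) := by exact_mod_cast h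
  linarith

theorem L1 (k i : ℕ) : ((i : ℚ) + 1) ^ 2 * dd (k + 1) (i + 1) =
    ((k : ℚ) + i + 1) * ((k : ℚ) + i + 2) * dd k i := by
  unfold dd
  have h1 := aux3 (k + 1 + i) i
  have h2 := aux3 k i
  have h3 := aux1 k i
  have e : k + 1 + (i + 1) = k + 1 + i + 1 := by omega
  rw [e]
  push_cast at h1
  calc ((i : ℚ) + 1) ^ 2 * (((k + 1 + i + 1).choose (i + 1) : ℚ) * ((k + 1).choose (i + 1) : ℚ))
      = (((i : ℚ) + 1) * ((k + 1 + i + 1).choose (i + 1) : ℚ)) *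
        (((i : ℚ) + 1) * ((k + 1).choose (i + 1) : ℚ)) := by ring
    _ = (((k : ℚ) + 1 + i + 1) * ((k + 1 + i).choose i : ℚ)) * (((k : ℚ) + 1) * (k.choose i : ℚ)) := by
        rw [h1, h2]
    _ = ((k : ℚ) + 1 + i + 1) * (k.choose i : ℚ) * (((k : ℚ) + 1) * ((k + 1 + i).choose i : ℚ)) := by
        ring
    _ = _ := by rw [h3]; ring

theorem L3 (k i : ℕ) : ((k : ℚ) + 1 - i) * dd (k + 1) i = ((k : ℚ) + i + 1) * dd k i := by
  have h0 : ((k : ℚ) + 1) ≠ 0 := by positivity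
  unfold dd
  have h1 := aux1 k i
  have h2 := aux2 k i
  apply mul_left_cancel₀ h0
  calc ((k : ℚ) + 1) * (((k : ℚ) + 1 - i) * (((k + 1 + i).choose i : ℚ) * ((k + 1).choose i : ℚ)))
      = (((k : ℚ) + 1) * ((k + 1 + i).choose i : ℚ)) *
        (((k : ℚ) + 1 - i) * ((k + 1).choose i : ℚ)) := by ring
    _ = _ := by rw [h1, ← h2]; ring

theorem L2 (k i : ℕ) : ((i : ℚ) + 1) ^ 2 * dd k (i + 1) =
    ((k : ℚ) - i) * (((k : ℚ) + 1 - i) * dd (k + 1) i) := by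
  rw [L3]
  unfold dd
  have h1 := aux3 (k + i) i
  have h2 : ((i : ℚ) + 1) * (k.choose (i + 1) : ℚ) = ((k : ℚ) - i) * (k.choose i : ℚ) := by
    rcases Nat.lt_or_ge k i with h | h
    · rw [Nat.choose_eq_zero_of_lt h, Nat.choose_eq_zero_of_lt (show k < i + 1 by omega)]; simp
    · have h3 := Nat.choose_succ_right_eq k i
      have h4 : (k.choose (i + 1) : ℚ) * ((i : ℚ) + 1) = (k.choose i : ℚ) * ((k - i : ℕ) : ℚ) := by
        exact_mod_cast h3
      rw [Nat.cast_sub h] at h4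
      linarith
  have e : k + (i + 1) = k + i + 1 := by omega
  rw [e]
  push_cast at h1
  calc ((i : ℚ) + 1) ^ 2 * (((k + i + 1).choose (i + 1) : ℚ) * (k.choose (i + 1) : ℚ))
      = (((i : ℚ) + 1) * ((k + i + 1).choose (i + 1) : ℚ)) *
        (((i : ℚ) + 1) * (k.choose (i + 1) : ℚ)) := by ring
    _ = _ := by rw [h1, h2]; ring

theorem term (k i : ℕ) : ((k : ℚ) + 2) * dd (k + 2) (i + 1) - (2 * (k : ℚ) + 3) * dd (k + 1) (i + 1)
    + ((k : ℚ) + 1) * dd k (i + 1) = 2 * (2 * (k : ℚ) + 3) * dd (k + 1) i := by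
  have hi : ((i : ℚ) + 1) ^ 2 ≠ 0 := by positivity
  apply mul_left_cancel₀ hi
  have h1 := L1 (k + 1) i
  have h2 := L1 k i
  have h3 := L2 k i
  have h4 := L3 k i
  push_cast at h1
  have h2' : ((i : ℚ) + 1) ^ 2 * dd (k + 1) (i + 1) =
      ((k : ℚ) + i + 2) * (((k : ℚ) + 1 - i) * dd (k + 1) i) := by
    rw [h2, h4]; ring
  calc ((i : ℚ) + 1) ^ 2 * (((k : ℚ) + 2) * dd (k + 2) (i + 1) - (2 * (k : ℚ) + 3) * dd (k + 1) (i + 1)
    + ((k : ℚ) + 1) * dd k (i + 1))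
      = ((k : ℚ) + 2) * (((i : ℚ) + 1) ^ 2 * dd (k + 1 + 1) (i + 1))
        - (2 * (k : ℚ) + 3) * (((i : ℚ) + 1) ^ 2 * dd (k + 1) (i + 1))
        + ((k : ℚ) + 1) * (((i : ℚ) + 1) ^ 2 * dd k (i + 1)) := by ring
    _ = _ := by rw [h1, h2', h3]; ring

/-- the sum -/
def DS (k : ℕ) : ℚ := ∑ i ∈ range (k + 1), dd k i

theorem DS_ext (k N : ℕ) (h : k + 1 ≤ N) : DS k = ∑ i ∈ range N, dd k i := by
  unfold DS
  apply Finset.sum_subset
  · intro x hx; rw [mem_range] at *; omega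
  · intro x _ hx
    rw [mem_range] at hx
    exact dd_zero (by omega)

theorem DS_rec (k : ℕ) : ((k : ℚ) + 2) * DS (k + 2) =
    (2 * (k : ℚ) + 3) * 3 * DS (k + 1) - ((k : ℚ) + 1) * DS k := by
  have e : ((k : ℚ) + 2) * DS (k + 2) - (2 * (k : ℚ) + 3) * DS (k + 1) + ((k : ℚ) + 1) * DS k =
      2 * (2 * (k : ℚ) + 3) * DS (k + 1) := by
    rw [DS_ext (k + 2) (k + 2 + 1) le_rfl, DS_ext k (k + 2 + 1) (by omega)]
    conv_lhs => rw [DS_ext (k + 1) (k + 2 + 1) (by omega)]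
    conv_rhs => rw [DS_ext (k + 1) (k + 2) (by omega)]
    rw [mul_sum, mul_sum, mul_sum, ← sum_sub_distrib, ← sum_add_distrib, sum_range_succ', mul_sum]
    have h0 : ((k : ℚ) + 2) * dd (k + 2) 0 - (2 * (k : ℚ) + 3) * dd (k + 1) 0
        + ((k : ℚ) + 1) * dd k 0 = 0 := by
      simp [dd]; ring
    rw [h0, add_zero]
    apply sum_congr rfl
    intro i _
    exact term k i
  linarith

theorem P_DS : ∀ k : ℕ, P 3 k = DS k ∧ P 3 (k + 1) = DS (k + 1)
  | 0 => by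
    constructor
    · simp [P, DS, dd]
    · simp [P, DS, dd, sum_range_succ]; norm_num
  | (k + 1) => by
    obtain ⟨h1, h2⟩ := P_DS k
    refine ⟨h2, ?_⟩
    have h := DS_rec k
    have h0 : ((k : ℚ) + 2) ≠ 0 := by positivity
    rw [show k + 1 + 1 = k + 2 from rfl, P, h1, h2]
    rw [div_eq_iff h0]
    linarith

/-- TRI-DEL -/
theorem del : StmtDel := by
  intro k
  rw [(P_DS k).1]
  unfold DS
  apply sum_congr rfl
  intro i _
  exact (dd_eq k i).symm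

end Pool.Agent.R488.Tri
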