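import Mathlib
import Pool.Agent.R488.Tri.ModA

set_option autoImplicit false

namespace Pool.Agent.R488.Tri

open Finset Pool.Agent.R439.PL Pool.Agent.R439.PL.S4

variable {p n : ℕ} [hp : Fact p.Prime]

/-- `(r+1) C(p,r+1) = p C(p-1,r)` -/
theorem absorb (hp0 : 0 < p) (r : ℕ) : ((r : ℚ) + 1) * (p.choose (r + 1) : ℚ) = p * ((p - 1).choose r : ℚ) := by
  obtain ⟨q, hq⟩ : ∃ q, p = q + 1 := ⟨p - 1, by omega⟩
  subst hq
  have h := Nat.add_one_mul_choose_eq q r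
  have : (((q + 1) * q.choose r : ℕ) : ℚ) = (((q + 1).choose (r + 1) * (r + 1) : ℕ) : ℚ) := by rw [h]
  rw [Nat.add_sub_cancel]
  push_cast at this ⊢
  linear_combination (-1) * this

theorem oddterm (hpn : p = 2 * n + 1) {i : ℕ} (hi : i < n) :
    EQ p 2 ((p : ℚ) * (1 / (2 * i + 1))) (p.choose (2 * i + 1) : ℚ) := by
  have hu := U_nat (p := p) (k := 2 * i + 1) (by omega) (by omega)
  have h1 := absorb (p := p) (by omega) (2 * i)
  have h2 := choose_pm1 (p := p) (2 * i) (by omega)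
  rw [pow_mul, neg_one_sq, one_pow] at h2
  push_cast at hu h1
  have e1 : (p.choose (2 * i + 1) : ℚ) = p * ((p - 1).choose (2 * i) : ℚ) * (1 / (2 * i + 1)) := by
    rw [← h1]
    have := hu.1
    field_simp
  have m1 : (1 / (2 * (i : ℚ) + 1)) ∈ Zp p := by rw [one_div]; exact hu.2.2
  refine ⟨mul_mem p_mem m1, nat_mem _, ?_⟩
  have e2 : (p : ℚ) * (1 / (2 * i + 1)) - (p.choose (2 * i + 1) : ℚ) =
      -(p * (((p - 1).choose (2 * i) : ℚ) - 1)) * (1 / (2 * i + 1)) := by rw [e1]; ring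
  rw [e2]
  exact (((I_p (p := p)).mul h2.2.2).neg).mulR m1

theorem eventerm (hpn : p = 2 * n + 1) {a : ℕ} (ha : a < n) :
    EQ p 2 ((p : ℚ) * (1 / (2 * a + 2))) (-(p.choose (2 * a + 2) : ℚ)) := by
  have hu := U_nat (p := p) (k := 2 * a + 2) (by omega) (by omega)
  have h1 := absorb (p := p) (by omega) (2 * a + 1)
  have h2 := choose_pm1 (p := p) (2 * a + 1) (by omega)
  rw [pow_succ, pow_mul, neg_one_sq, one_pow, one_mul] at h2
  push_cast at hu h1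
  have e1 : (p.choose (2 * a + 2) : ℚ) = p * ((p - 1).choose (2 * a + 1) : ℚ) * (1 / (2 * a + 2)) := by
    rw [← h1]
    have := hu.1
    field_simp
    ring
  have m1 : (1 / (2 * (a : ℚ) + 2)) ∈ Zp p := by rw [one_div]; exact hu.2.2
  refine ⟨mul_mem p_mem m1, neg_mem (nat_mem _), ?_⟩
  have e2 : (p : ℚ) * (1 / (2 * a + 2)) - -(p.choose (2 * a + 2) : ℚ) =
      (p * (((p - 1).choose (2 * a + 1) : ℚ) - (-1))) * (1 / (2 * a + 2)) := by rw [e1]; ring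
  rw [e2]
  exact ((I_p (p := p)).mul h2.2.2).mulR m1

theorem highterm (hpn : p = 2 * n + 1) {a : ℕ} (ha : a < n) :
    EQ p 2 ((p : ℚ) * (1 / (2 * (n + 1 + a) + 1))) (-(p.choose (2 * a + 2) : ℚ)) := by
  refine EQ.trans ?_ (eventerm hpn ha)
  have hpq : (p : ℚ) = 2 * n + 1 := by exact_mod_cast hpn
  have hu := U_nat (p := p) (k := 2 * a + 2) (by omega) (by omega)
  have hv := two_add_one_U (p := p) (i := n + 1 + a) hpn (by omega) (by omega)
  push_cast at hu hv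
  have m1 : (1 / (2 * (a : ℚ) + 2)) ∈ Zp p := by rw [one_div]; exact hu.2.2
  have m2 : (1 / (2 * ((n : ℚ) + 1 + a) + 1)) ∈ Zp p := by rw [one_div]; exact hv.2.2
  refine ⟨mul_mem p_mem m2, mul_mem p_mem m1, -((1 / (2 * ((n : ℚ) + 1 + a) + 1)) * (1 / (2 * (a : ℚ) + 2))),
    neg_mem (mul_mem m2 m1), ?_⟩
  have h1 := hu.1
  have h2 := hv.1
  rw [hpq]
  field_simp
  ring

theorem OO_eq (hpn : p = 2 * n + 1) (y : ℚ) : OO p y = ∑ i ∈ range n, (p.choose (2 * i + 1) : ℚ) * y ^ i + y ^ n := by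
  rw [OO]
  have h1 : ∑ i ∈ range (p + 1), (p.choose (2 * i + 1) : ℚ) * y ^ i =
      ∑ i ∈ range (n + 1), (p.choose (2 * i + 1) : ℚ) * y ^ i := by
    symm
    refine sum_subset (range_subset_range.2 (by omega)) fun i _ hi => ?_
    rw [Nat.choose_eq_zero_of_lt (by have := mt mem_range.2 hi; omega)]
    simp
  rw [h1, sum_range_succ, ← hpn, Nat.choose_self]
  simp

theorem EV_eq (hpn : p = 2 * n + 1) (y : ℚ) : EV p y =
    ∑ i ∈ range n, (p.choose (2 * i + 2) : ℚ) * y ^ (i + 1) + 1 := by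
  rw [EV]
  have h1 : ∑ i ∈ range (p + 1), (p.choose (2 * i) : ℚ) * y ^ i =
      ∑ i ∈ range (n + 1), (p.choose (2 * i) : ℚ) * y ^ i := by
    symm
    refine sum_subset (range_subset_range.2 (by omega)) fun i _ hi => ?_
    rw [Nat.choose_eq_zero_of_lt (by have := mt mem_range.2 hi; omega)]
    simp
  rw [h1, sum_range_succ']
  simp [mul_add]

theorem LL_eq (hpn : p = 2 * n + 1) (y : ℚ) : LL p y = ∑ i ∈ range n, 1 / (2 * (i : ℚ) + 1) * y ^ i +
    ∑ a ∈ range n, 1 / (2 * ((n : ℚ) + 1 + a) + 1) * (y ^ n * y ^ (a + 1)) := by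
  rw [LL]
  conv_lhs => rw [show range p = range (n + (n + 1)) by rw [hpn]; congr 1; omega]
  rw [sum_range_add, sum_range_succ']
  have h1 : ∑ i ∈ range n, (if 2 * i + 1 = p then 0 else y ^ i / (2 * (i : ℚ) + 1)) =
      ∑ i ∈ range n, 1 / (2 * (i : ℚ) + 1) * y ^ i := by
    refine sum_congr rfl fun i hi => ?_
    have := mem_range.1 hi
    rw [if_neg (by omega)]; ring
  have h2 : ∑ a ∈ range n, (if 2 * (n + (a + 1)) + 1 = p then 0 else
      y ^ (n + (a + 1)) / (2 * ((n + (a + 1) : ℕ) : ℚ) + 1)) =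
      ∑ a ∈ range n, 1 / (2 * ((n : ℚ) + 1 + a) + 1) * (y ^ n * y ^ (a + 1)) := by
    refine sum_congr rfl fun i hi => ?_
    have := mem_range.1 hi
    rw [if_neg (by omega), pow_add, show ((n + (i + 1) : ℕ) : ℚ) = (n : ℚ) + 1 + i by push_cast; ring]
    ring
  rw [h1, h2, if_pos (by omega)]
  ring

theorem lam : StmtLam := by
  intro p n _ hpn h3 y
  rw [LL_eq hpn, OO_eq hpn, EV_eq hpn, add_sub_cancel_right, mul_add, mul_sum, mul_sum, mul_sum]
  have hy : (y : ℚ) ∈ Zp p := int_mem y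
  have h1 : EQ p 2 (∑ i ∈ range n, (p : ℚ) * (1 / (2 * (i : ℚ) + 1) * (y : ℚ) ^ i))
      (∑ i ∈ range n, (p.choose (2 * i + 1) : ℚ) * (y : ℚ) ^ i) := by
    refine EQ.sum fun i hi => ?_
    rw [← mul_assoc]
    exact (oddterm hpn (mem_range.1 hi)).mul (EQ.refl (pow_mem hy _))
  have h2 : EQ p 2 (∑ a ∈ range n, (p : ℚ) * (1 / (2 * ((n : ℚ) + 1 + a) + 1) * ((y : ℚ) ^ n * (y : ℚ) ^ (a + 1))))
      (∑ a ∈ range n, (-((y : ℚ) ^ n * ((p.choose (2 * a + 2) : ℚ) * (y : ℚ) ^ (a + 1))))) := by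
    refine EQ.sum fun a ha => ?_
    rw [← mul_assoc]
    have := (highterm hpn (mem_range.1 ha)).mul (EQ.refl (mul_mem (pow_mem hy n) (pow_mem hy (a + 1))))
    have e : -((y : ℚ) ^ n * ((p.choose (2 * a + 2) : ℚ) * (y : ℚ) ^ (a + 1))) =
        -(p.choose (2 * a + 2) : ℚ) * ((y : ℚ) ^ n * (y : ℚ) ^ (a + 1)) := by ring
    rw [e]
    exact this
  have h4 := (EQ.refl (pow_mem hy n)).add (h1.add h2)
  rw [sum_neg_distrib] at h4
  have e : (y : ℚ) ^ n + (∑ i ∈ range n, (p.choose (2 * i + 1) : ℚ) * (y : ℚ) ^ i +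
      -∑ a ∈ range n, ((y : ℚ) ^ n * ((p.choose (2 * a + 2) : ℚ) * (y : ℚ) ^ (a + 1)))) =
      ∑ i ∈ range n, (p.choose (2 * i + 1) : ℚ) * (y : ℚ) ^ i + (y : ℚ) ^ n -
      ∑ a ∈ range n, ((y : ℚ) ^ n * ((p.choose (2 * a + 2) : ℚ) * (y : ℚ) ^ (a + 1))) := by ring
  rw [e] at h4
  exact h4

end Pool.Agent.R488.Tri
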