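import Pool.Agent.R488.Tri.Defs

set_option autoImplicit false

namespace Pool.Agent.R488.Tri

open Finset

/-- `1/z!`, and `0` for negative `z` -/
def gi (z : ℤ) : ℚ := if 0 ≤ z then ((z.toNat).factorial : ℚ)⁻¹ else 0

theorem gi_nat (m : ℕ) : gi (m : ℤ) = ((m.factorial : ℕ) : ℚ)⁻¹ := by
  unfold gi
  rw [if_pos (by positivity), Int.toNat_natCast]

theorem gi_neg {z : ℤ} (h : z < 0) : gi z = 0 := by
  unfold gi
  rw [if_neg (by omega)]

theorem gi_rec (z : ℤ) : gi (z - 1) = z * gi z := by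
  rcases lt_trichotomy z 0 with h | h | h
  · rw [gi_neg h, gi_neg (by omega)]; simp
  · subst h; rw [gi_neg (by omega)]; simp
  · obtain ⟨m, hm⟩ : ∃ m : ℕ, z = (m : ℤ) + 1 := ⟨(z - 1).toNat, by omega⟩
    subst hm
    have e1 : ((m : ℤ) + 1 - 1) = (m : ℤ) := by ring
    have e2 : ((m : ℤ) + 1) = ((m + 1 : ℕ) : ℤ) := by push_cast; ring
    rw [e1, e2, gi_nat, gi_nat, Nat.factorial_succ]
    have h1 : ((m.factorial : ℕ) : ℚ) ≠ 0 := by exact_mod_cast m.factorial_ne_zero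
    have h2 : ((m : ℚ) + 1) ≠ 0 := by positivity
    push_cast
    field_simp

/-- coefficients of the even Legendre polynomials -/
def ca (n i : ℕ) : ℚ := (-1) ^ (n + i) * ((2 * n + 2 * i).factorial : ℚ) * gi ((n : ℤ) - i) /
  (4 ^ n * ((n + i).factorial : ℚ) * ((2 * i).factorial : ℚ))

/-- coefficients of the odd Legendre polynomials -/
def cb (n i : ℕ) : ℚ := (-1) ^ (n + i) * ((2 * n + 2 * i + 2).factorial : ℚ) * gi ((n : ℤ) - i) /
  (2 * 4 ^ n * ((n + i + 1).factorial : ℚ) * ((2 * i + 1).factorial : ℚ))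

/-- as `ce` -/
def ce' (n i : ℕ) : ℚ := (-1) ^ i * ((2 * n + 2 * i + 1).factorial : ℚ) * gi ((n : ℤ) - i) /
  ((4 * (i : ℚ) + 1) * 4 ^ n * ((n + i).factorial : ℚ) * ((2 * i).factorial : ℚ))

/-- as `co` -/
def co' (n i : ℕ) : ℚ := 2 * (-1) ^ i * ((2 * n + 2 * i + 1).factorial : ℚ) *
  gi ((n : ℤ) - 1 - i) /
  ((4 * (i : ℚ) + 3) * 4 ^ n * ((n + i).factorial : ℚ) * ((2 * i + 1).factorial : ℚ))

theorem fne (m : ℕ) : (m.factorial : ℚ) ≠ 0 := by exact_mod_cast m.factorial_ne_zero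

theorem fs (m : ℕ) : ((m + 1).factorial : ℚ) = ((m : ℚ) + 1) * (m.factorial : ℚ) := by
  rw [Nat.factorial_succ]; push_cast; ring

theorem a_zero {n i : ℕ} (h : n < i) : ca n i = 0 := by
  unfold ca; rw [gi_neg (by omega)]; simp

theorem b_zero {n i : ℕ} (h : n < i) : cb n i = 0 := by
  unfold cb; rw [gi_neg (by omega)]; simp

theorem ra0 (n : ℕ) : (2 * (n : ℚ) + 2) * ca (n + 1) 0 = - ((2 * (n : ℚ) + 1) * ca n 0) := by
  unfold ca
  have e1 : ((n : ℤ) - (0 : ℕ)) = ((n + 1 : ℕ) : ℤ) - (0 : ℕ) - 1 := by push_cast; ring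
  rw [e1, gi_rec]
  have h1 := fs (2 * n)
  have h2 := fs (2 * n + 1)
  have h3 := fs n
  have n1 := fne (2 * n)
  have n2 := fne n
  have p1 : (2 * (n + 1) + 2 * 0) = 2 * n + 1 + 1 := by ring
  have p2 : (2 * n + 2 * 0) = 2 * n := by ring
  rw [p1, p2, h2, h1, Nat.add_zero, Nat.add_zero, h3]
  have n3 : ((n : ℚ) + 1) ≠ 0 := by positivity
  have n4 : (4 : ℚ) ^ n ≠ 0 := by positivity
  push_cast
  simp only [Nat.factorial_zero, Nat.cast_one, pow_succ]
  field_simp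
  ring

theorem ra (n j : ℕ) : (2 * (n : ℚ) + 2) * ca (n + 1) (j + 1) =
    (4 * (n : ℚ) + 3) * cb n j - (2 * (n : ℚ) + 1) * ca n (j + 1) := by
  unfold ca cb
  have e1 : ((n : ℤ) - ((j + 1 : ℕ) : ℤ)) = ((n : ℤ) - j) - 1 := by push_cast; ring
  have e2 : (((n + 1 : ℕ) : ℤ) - ((j + 1 : ℕ) : ℤ)) = ((n : ℤ) - j) := by push_cast; ring
  rw [e1, e2, gi_rec]
  have p1 : (2 * (n + 1) + 2 * (j + 1)) = 2 * n + 2 * j + 2 + 1 + 1 := by ring
  have p2 : (2 * n + 2 * (j + 1)) = 2 * n + 2 * j + 2 := by ring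
  have p3 : n + 1 + (j + 1) = n + j + 1 + 1 := by ring
  have p4 : n + (j + 1) = n + j + 1 := by ring
  have p5 : 2 * (j + 1) = 2 * j + 1 + 1 := by ring
  rw [p1, p2, p3, p4, p5, fs (2 * n + 2 * j + 2 + 1), fs (2 * n + 2 * j + 2), fs (n + j + 1),
    fs (2 * j + 1)]
  have n1 := fne (2 * n + 2 * j + 2)
  have n2 := fne (n + j + 1)
  have n3 := fne (2 * j + 1)
  have n4 : (4 : ℚ) ^ n ≠ 0 := by positivity
  have n5 : ((n : ℚ) + j + 1 + 1) ≠ 0 := by positivity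
  have n6 : (2 * (j : ℚ) + 1 + 1) ≠ 0 := by positivity
  push_cast
  simp only [pow_succ]
  field_simp
  ring

theorem rb (n i : ℕ) : (2 * (n : ℚ) + 3) * cb (n + 1) i =
    (4 * (n : ℚ) + 5) * ca (n + 1) i - (2 * (n : ℚ) + 2) * cb n i := by
  unfold ca cb
  have e1 : ((n : ℤ) - (i : ℤ)) = (((n + 1 : ℕ) : ℤ) - i) - 1 := by push_cast; ring
  rw [e1, gi_rec]
  have p1 : (2 * (n + 1) + 2 * i + 2) = 2 * n + 2 * i + 2 + 1 + 1 := by ring
  have p2 : (2 * (n + 1) + 2 * i) = 2 * n + 2 * i + 2 := by ring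
  have p3 : n + 1 + i + 1 = n + i + 1 + 1 := by ring
  have p4 : n + 1 + i = n + i + 1 := by ring
  rw [p1, p2, p3, p4, fs (2 * n + 2 * i + 2 + 1), fs (2 * n + 2 * i + 2), fs (n + i + 1),
    fs (2 * i)]
  have n1 := fne (2 * n + 2 * i + 2)
  have n2 := fne (n + i + 1)
  have n3 := fne (2 * i)
  have n4 : (4 : ℚ) ^ n ≠ 0 := by positivity
  have n5 : ((n : ℚ) + i + 1 + 1) ≠ 0 := by positivity
  have n6 : (2 * (i : ℚ) + 1) ≠ 0 := by positivity
  push_cast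
  simp only [pow_succ]
  field_simp
  ring

theorem rce (n i : ℕ) : ce' (n + 1) i = ce' n i + (-1) ^ (n + 1) * ca (n + 1) i := by
  unfold ce' ca
  have e1 : ((n : ℤ) - (i : ℤ)) = (((n + 1 : ℕ) : ℤ) - i) - 1 := by push_cast; ring
  rw [e1, gi_rec]
  have p1 : (2 * (n + 1) + 2 * i + 1) = 2 * n + 2 * i + 1 + 1 + 1 := by ring
  have p2 : (2 * (n + 1) + 2 * i) = 2 * n + 2 * i + 1 + 1 := by ring
  have p4 : n + 1 + i = n + i + 1 := by ring
  have s1 : ((-1 : ℚ)) ^ (n + 1) * (-1) ^ (n + i + 1) = (-1) ^ i := by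
    rw [← pow_add]
    have : n + 1 + (n + i + 1) = 2 * (n + 1) + i := by ring
    rw [this, pow_add, pow_mul]; norm_num
  rw [p1, p2, p4, fs (2 * n + 2 * i + 1 + 1), fs (2 * n + 2 * i + 1), fs (n + i), ← s1]
  have n1 := fne (2 * n + 2 * i + 1)
  have n2 := fne (n + i)
  have n3 := fne (2 * i)
  have n4 : (4 : ℚ) ^ n ≠ 0 := by positivity
  have n5 : ((n : ℚ) + i + 1) ≠ 0 := by positivity
  have n6 : (4 * (i : ℚ) + 1) ≠ 0 := by positivity
  push_cast
  simp only [pow_succ]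
  field_simp
  ring

theorem rco (n i : ℕ) : co' (n + 1) i = co' n i + (-1) ^ n * cb n i := by
  unfold co' cb
  have e1 : ((n : ℤ) - 1 - (i : ℤ)) = ((n : ℤ) - i) - 1 := by ring
  have e2 : (((n + 1 : ℕ) : ℤ) - 1 - (i : ℤ)) = ((n : ℤ) - i) := by push_cast; ring
  rw [e1, e2, gi_rec]
  have p1 : (2 * (n + 1) + 2 * i + 1) = 2 * n + 2 * i + 1 + 1 + 1 := by ring
  have p2 : (2 * n + 2 * i + 2) = 2 * n + 2 * i + 1 + 1 := by ring
  have p4 : n + 1 + i = n + i + 1 := by ring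
  have s1 : ((-1 : ℚ)) ^ n * (-1) ^ (n + i) = (-1) ^ i := by
    rw [← pow_add]
    have : n + (n + i) = 2 * n + i := by ring
    rw [this, pow_add, pow_mul]; norm_num
  rw [p1, p2, p4, fs (2 * n + 2 * i + 1 + 1), fs (2 * n + 2 * i + 1), fs (n + i), ← s1]
  have n1 := fne (2 * n + 2 * i + 1)
  have n2 := fne (n + i)
  have n3 := fne (2 * i + 1)
  have n4 : (4 : ℚ) ^ n ≠ 0 := by positivity
  have n5 : ((n : ℚ) + i + 1) ≠ 0 := by positivity
  have n6 : (4 * (i : ℚ) + 3) ≠ 0 := by positivity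
  push_cast
  simp only [pow_succ]
  field_simp
  ring

/-- even Legendre polynomial -/
def PA (v : ℚ) (n : ℕ) : ℚ := ∑ i ∈ range (n + 1), ca n i * v ^ (2 * i)

/-- odd Legendre polynomial -/
def PB (v : ℚ) (n : ℕ) : ℚ := ∑ i ∈ range (n + 1), cb n i * v ^ (2 * i + 1)

theorem PA_ext (v : ℚ) (n : ℕ) : PA v n = ∑ i ∈ range (n + 1 + 1), ca n i * v ^ (2 * i) := by
  rw [sum_range_succ _ (n + 1), a_zero (Nat.lt_succ_self n), zero_mul, add_zero]; rfl

theorem PB_ext (v : ℚ) (n : ℕ) : PB v n = ∑ i ∈ range (n + 1 + 1), cb n i * v ^ (2 * i + 1) := by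
  rw [sum_range_succ _ (n + 1), b_zero (Nat.lt_succ_self n), zero_mul, add_zero]; rfl

theorem PA_rec (v : ℚ) (n : ℕ) : (2 * (n : ℚ) + 2) * PA v (n + 1) =
    (4 * (n : ℚ) + 3) * v * PB v n - (2 * (n : ℚ) + 1) * PA v n := by
  rw [PA_ext v n]
  unfold PA PB
  rw [mul_sum, mul_sum, mul_sum, sum_range_succ', sum_range_succ' _ (n + 1)]
  have h0 := ra0 n
  have : ∀ i ∈ range (n + 1), (2 * (n : ℚ) + 2) * (ca (n + 1) (i + 1) * v ^ (2 * (i + 1))) =
      (4 * (n : ℚ) + 3) * v * (cb n i * v ^ (2 * i + 1)) -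
      (2 * (n : ℚ) + 1) * (ca n (i + 1) * v ^ (2 * (i + 1))) := by
    intro i _
    rw [← mul_assoc, ra n i]
    ring
  rw [sum_congr rfl this, sum_sub_distrib]
  simp only [mul_zero, pow_zero, mul_one]
  linarith

theorem PB_rec (v : ℚ) (n : ℕ) : (2 * (n : ℚ) + 3) * PB v (n + 1) =
    (4 * (n : ℚ) + 5) * v * PA v (n + 1) - (2 * (n : ℚ) + 2) * PB v n := by
  rw [PB_ext v n]
  unfold PA PB
  rw [mul_sum, mul_sum, mul_sum, ← sum_sub_distrib]
  apply sum_congr rfl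
  intro i _
  rw [← mul_assoc, rb n i]
  ring

theorem P_AB (v : ℚ) : ∀ n : ℕ, P v (2 * n) = PA v n ∧ P v (2 * n + 1) = PB v n
  | 0 => by
    constructor
    · simp [P, PA, ca, gi]
    · simp [P, PB, cb, gi]
  | (n + 1) => by
    obtain ⟨h1, h2⟩ := P_AB v n
    have h3 : P v (2 * (n + 1)) = PA v (n + 1) := by
      have e : 2 * (n + 1) = 2 * n + 2 := by ring
      have h := PA_rec v n
      have h0 : (((2 * n : ℕ) : ℚ) + 2) ≠ 0 := by positivity
      rw [e, P, h1, h2, div_eq_iff h0]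
      push_cast
      linarith
    refine ⟨h3, ?_⟩
    have e : 2 * (n + 1) + 1 = (2 * n + 1) + 2 := by ring
    have h := PB_rec v n
    have h0 : (((2 * n + 1 : ℕ) : ℚ) + 2) ≠ 0 := by positivity
    have e2 : 2 * n + 1 + 1 = 2 * (n + 1) := by ring
    rw [e, P, e2, h2, h3, div_eq_iff h0]
    push_cast
    linarith

theorem eps1 (n : ℕ) : eps (2 * n + 1) = (-1) ^ n := by
  unfold eps
  rw [show (2 * n + 1) / 2 = n by omega]

theorem eps2 (n : ℕ) : eps (2 * n + 2) = (-1) ^ (n + 1) := by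
  unfold eps
  rw [show (2 * n + 2) / 2 = n + 1 by omega]

theorem leg' (v : ℚ) : ∀ n : ℕ, ∑ k ∈ range (2 * n + 1), eps k * P v k =
    ∑ i ∈ range (n + 1), ce' n i * v ^ (2 * i) + ∑ i ∈ range n, co' n i * v ^ (2 * i + 1)
  | 0 => by simp [P, eps, ce', gi]
  | (n + 1) => by
    have ih := leg' v n
    have e : 2 * (n + 1) + 1 = 2 * n + 1 + 1 + 1 := by ring
    rw [e, sum_range_succ, sum_range_succ, ih]
    have e2 : 2 * n + 1 + 1 = 2 * (n + 1) := by ring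
    have h1 : eps (2 * n + 1 + 1) = (-1) ^ (n + 1) := eps2 n
    rw [h1, eps1, e2, (P_AB v n).2, (P_AB v (n + 1)).1]
    have z1 : ce' n (n + 1) = 0 := by
      unfold ce'; rw [gi_neg (by push_cast; omega)]; simp
    have z2 : co' n n = 0 := by
      unfold co'; rw [gi_neg (by omega)]; simp
    have t1 : ∑ i ∈ range (n + 1), ce' n i * v ^ (2 * i) =
        ∑ i ∈ range (n + 1 + 1), ce' n i * v ^ (2 * i) := by
      rw [sum_range_succ _ (n + 1), z1]; ring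
    have t2 : ∑ i ∈ range n, co' n i * v ^ (2 * i + 1) =
        ∑ i ∈ range (n + 1), co' n i * v ^ (2 * i + 1) := by
      rw [sum_range_succ _ n, z2]; ring
    rw [t1, t2]
    have t3 : ∑ i ∈ range (n + 1 + 1), ce' (n + 1) i * v ^ (2 * i) =
        ∑ i ∈ range (n + 1 + 1), ce' n i * v ^ (2 * i) + (-1) ^ (n + 1) * PA v (n + 1) := by
      unfold PA
      rw [mul_sum, ← sum_add_distrib]
      apply sum_congr rfl
      intro i _
      rw [rce]; ring
    have t4 : ∑ i ∈ range (n + 1), co' (n + 1) i * v ^ (2 * i + 1) =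
        ∑ i ∈ range (n + 1), co' n i * v ^ (2 * i + 1) + (-1) ^ n * PB v n := by
      unfold PB
      rw [mul_sum, ← sum_add_distrib]
      apply sum_congr rfl
      intro i _
      rw [rco]; ring
    rw [t3, t4]
    ring

/-- TRI-LEG -/
theorem leg : StmtLeg := by
  intro v n
  rw [leg' v n]
  congr 1
  · apply sum_congr rfl
    intro i hi
    rw [mem_range] at hi
    congr 1
    unfold ce' ce
    have e : ((n : ℤ) - i) = ((n - i : ℕ) : ℤ) := by omega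
    rw [e, gi_nat]
    have n1 := fne (n - i)
    have n2 := fne (n + i)
    have n3 := fne (2 * i)
    have n6 : (4 * (i : ℚ) + 1) ≠ 0 := by positivity
    field_simp
  · apply sum_congr rfl
    intro i hi
    rw [mem_range] at hi
    congr 1
    unfold co' co
    have e : ((n : ℤ) - 1 - i) = ((n - 1 - i : ℕ) : ℤ) := by omega
    rw [e, gi_nat]
    have n1 := fne (n - 1 - i)
    have n2 := fne (n + i)
    have n3 := fne (2 * i + 1)
    have n6 : (4 * (i : ℚ) + 3) ≠ 0 := by positivity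
    field_simp

end Pool.Agent.R488.Tri
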