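import Mathlib
import Pool.Agent.R488.Tri.Lam

set_option autoImplicit false

/-!
Congruences modulo `p^2` for MP_20e244_nt, second part: the alternating sum of Delannoy numbers.
-/

namespace Pool.Agent.R488.Tri

open Finset Pool.Agent.R439.PL Pool.Agent.R439.PL.S4 Pool.Agent.R488.AZ

variable {p n : ℕ} [hp : Fact p.Prime]

theorem cc_one {k : ℕ} (hk : k < p) : EQ p 1 (cc p k) 1 := by
  have h : EQ p 1 (cc p k) (∏ _i ∈ range k, (1 : ℚ)) := by
    refine EQ.prod fun i hi => ?_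
    have hi' := mem_range.1 hi
    have hd := pdiv (p := p) (k := i) (by omega)
    refine ⟨add_mem (one_mem _) hd.mem, one_mem _, ?_⟩
    rw [add_sub_cancel_left]; exact hd
  rwa [prod_const_one] at h

/-- `4^n = 2^(p-1) = 1` modulo `p` -/
theorem four_pow (hpn : p = 2 * n + 1) (h3 : 3 < p) : EQ p 1 ((4 : ℚ) ^ n) 1 := by
  have h1 : Int.ModEq p (2 ^ (p - 1)) 1 := by
    refine Int.ModEq.pow_card_sub_one_eq_one hp.out ?_
    have : IsCoprime ((2 : ℕ) : ℤ) (p : ℤ) :=
      Nat.isCoprime_iff_coprime.2 ((Nat.coprime_primes Nat.prime_two hp.out).2 (by omega))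
    exact_mod_cast this
  obtain ⟨c, hc⟩ := h1.symm.dvd
  have e2 : p - 1 = 2 * n := by omega
  rw [e2, pow_mul] at hc
  refine ⟨by exact_mod_cast pow_mem (nat_mem (p := p) 4) n, one_mem _, (c : ℚ), int_mem c, ?_⟩
  rw [pow_one]
  exact_mod_cast hc

theorem four_U (h3 : 3 < p) (k : ℕ) : U p ((4 : ℚ) ^ k) := by
  have := (U_nat (p := p) (k := 2) (by omega) (by omega)).pow (2 * k)
  rw [pow_mul] at this
  push_cast at this
  norm_num at this
  exact this

/-- coefficients -/
def cf (n j : ℕ) : ℚ := if j % 2 = 0 then ce n (j / 2) else co n (j / 2)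

theorem split_par (f : ℕ → ℚ) (n : ℕ) : ∑ j ∈ range (2 * n + 1), f j =
    ∑ i ∈ range (n + 1), f (2 * i) + ∑ i ∈ range n, f (2 * i + 1) := by
  induction n with
  | zero => simp
  | succ n ih =>
    rw [show 2 * (n + 1) + 1 = 2 * n + 1 + 1 + 1 by ring, sum_range_succ, sum_range_succ, ih,
      sum_range_succ _ (n + 1), sum_range_succ (fun i => f (2 * i + 1))]
    rw [show 2 * n + 1 + 1 = 2 * (n + 1) by ring]
    ring

theorem leg_cf (hl : StmtLeg) (v : ℚ) (n : ℕ) : ∑ k ∈ range (2 * n + 1), eps k * P v k =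
    ∑ j ∈ range (2 * n + 1), cf n j * v ^ j := by
  rw [hl, split_par]
  congr 1
  · refine sum_congr rfl fun i _ => ?_
    rw [cf, if_pos (by omega), show 2 * i / 2 = i by omega]
  · refine sum_congr rfl fun i _ => ?_
    rw [cf, if_neg (by omega), show (2 * i + 1) / 2 = i by omega]

/-- the numbers `g_j` -/
def gf (p n j : ℕ) : ℚ := (2 * (j : ℚ) + 1) * cf n j / p

theorem fac_odd (hpn : p = 2 * n + 1) (i : ℕ) : ((2 * n + 2 * i + 1).factorial : ℚ) =
    p * ((2 * n).factorial * (2 * i).factorial * cc p (2 * i)) := by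
  rw [show 2 * n + 2 * i + 1 = p + 2 * i by omega, fac_cc]
  have h1 : (p.factorial : ℚ) = p * (2 * n).factorial := by
    rw [hpn, Nat.factorial_succ (2 * n)]; push_cast; ring
  rw [h1]; ring

theorem choose_2n (n i : ℕ) (hi : i ≤ n) : ((2 * n).choose (n + i) : ℚ) =
    (2 * n).factorial / ((n + i).factorial * (n - i).factorial) := by
  rw [Nat.cast_choose ℚ (show n + i ≤ 2 * n by omega), show 2 * n - (n + i) = n - i by omega]

theorem ge_eq (hpn : p = 2 * n + 1) {i : ℕ} (hi : i ≤ n) : gf p n (2 * i) =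
    (-1) ^ i * ((p - 1).choose (n + i) : ℚ) * cc p (2 * i) / 4 ^ n := by
  rw [show p - 1 = 2 * n by omega, choose_2n n i hi, gf, cf, if_pos (by omega),
    show 2 * i / 2 = i by omega, ce, fac_odd hpn]
  have a1 : (4 * (i : ℚ) + 1) ≠ 0 := by positivity
  have a2 : ((n - i).factorial : ℚ) ≠ 0 := by positivity
  have a3 : ((n + i).factorial : ℚ) ≠ 0 := by positivity
  have a4 : ((2 * i).factorial : ℚ) ≠ 0 := by positivity
  have a5 : (p : ℚ) ≠ 0 := p_ne
  have a6 : (4 : ℚ) ^ n ≠ 0 := by positivity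
  push_cast
  generalize ((n - i).factorial : ℚ) = A at a2
  generalize ((n + i).factorial : ℚ) = B at a3
  generalize ((2 * i).factorial : ℚ) = D at a4
  generalize ((2 * n).factorial : ℚ) = E
  generalize cc p (2 * i) = F
  have a7 : 2 * (2 * (i : ℚ)) + 1 ≠ 0 := by positivity
  field_simp
  ring

theorem go_eq (hpn : p = 2 * n + 1) {i : ℕ} (hi : i < n) : gf p n (2 * i + 1) * (2 * i + 1) =
    (2 * ((n : ℚ) - i)) * ((-1) ^ i * ((p - 1).choose (n + i) : ℚ) * cc p (2 * i) / 4 ^ n) := by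
  obtain ⟨t, ht⟩ : ∃ t, n = i + 1 + t := ⟨n - (i + 1), by omega⟩
  rw [show p - 1 = 2 * n by omega, choose_2n n i hi.le, gf, cf, if_neg (by omega),
    show (2 * i + 1) / 2 = i by omega, co, fac_odd hpn, show n - 1 - i = t by omega,
    show n - i = t + 1 by omega, Nat.factorial_succ t, Nat.factorial_succ (2 * i)]
  have h1 : (n : ℚ) - i = t + 1 := by rw [ht]; push_cast; ring
  rw [h1]
  have a1 : (4 * (i : ℚ) + 3) ≠ 0 := by positivity
  have a2 : (t.factorial : ℚ) ≠ 0 := by positivity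
  have a3 : ((n + i).factorial : ℚ) ≠ 0 := by positivity
  have a4 : ((2 * i).factorial : ℚ) ≠ 0 := by positivity
  have a5 : (p : ℚ) ≠ 0 := p_ne
  have a6 : (4 : ℚ) ^ n ≠ 0 := by positivity
  have a8 : (t : ℚ) + 1 ≠ 0 := by positivity
  have a9 : 2 * (i : ℚ) + 1 ≠ 0 := by positivity
  push_cast
  generalize (t.factorial : ℚ) = A at a2
  generalize ((n + i).factorial : ℚ) = B at a3
  generalize ((2 * i).factorial : ℚ) = D at a4
  generalize ((2 * n).factorial : ℚ) = E
  generalize cc p (2 * i) = F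
  field_simp
  ring

theorem core_eq (hpn : p = 2 * n + 1) (h3 : 3 < p) {i : ℕ} (hi : i ≤ n) :
    EQ p 1 ((-1) ^ i * ((p - 1).choose (n + i) : ℚ) * cc p (2 * i) / 4 ^ n) ((-1) ^ n) := by
  have h1 := choose_pm1 (p := p) (n + i) (by omega)
  have h2 := cc_one (p := p) (k := 2 * i) (by omega)
  have h4 := (((EQ.refl (k := 1) (neg_mem' (p := p) i)).mul h1).mul h2).div one_pos (four_pow hpn h3)
    (four_U h3 n)
  have e : ((-1 : ℚ)) ^ i * (-1) ^ (n + i) * 1 / 1 = (-1) ^ n := by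
    rw [pow_add]
    have : ((-1 : ℚ)) ^ i * (-1) ^ i = 1 := by rw [← mul_pow]; norm_num
    linear_combination ((-1 : ℚ)) ^ n * this
  rwa [e] at h4

theorem gf_eq (hpn : p = 2 * n + 1) (h3 : 3 < p) {j : ℕ} (hj : j < p) :
    EQ p 1 (gf p n j) ((-1) ^ n * (-1) ^ j) := by
  rcases Nat.even_or_odd' j with ⟨i, hi | hi⟩
  · subst hi
    rw [ge_eq hpn (by omega), pow_mul, neg_one_sq, one_pow, mul_one]
    exact core_eq hpn h3 (by omega)
  · subst hi
    have h1 := go_eq hpn (show i < n by omega)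
    have h2 := core_eq hpn h3 (show i ≤ n by omega)
    have hu := U_nat (p := p) (k := 2 * i + 1) (by omega) (by omega)
    push_cast at hu
    have hpq : (p : ℚ) = 2 * n + 1 := by exact_mod_cast hpn
    rw [pow_succ, pow_mul, neg_one_sq, one_pow, one_mul]
    generalize ((-1) ^ i * ((p - 1).choose (n + i) : ℚ) * cc p (2 * i) / 4 ^ n) = K at h1 h2
    have e1 : gf p n (2 * i + 1) = (2 * ((n : ℚ) - i)) * K * (1 / (2 * i + 1)) := by
      rw [← h1]
      have := hu.1
      field_simp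
    have m1 : (1 / (2 * (i : ℚ) + 1)) ∈ Zp p := by rw [one_div]; exact hu.2.2
    have m2 : (2 * ((n : ℚ) - i)) ∈ Zp p := mul_mem n2 (sub_mem (nat_mem n) (nat_mem i))
    refine ⟨by rw [e1]; exact mul_mem (mul_mem m2 h2.1) m1, mul_mem (neg_mem' n) (neg_mem (one_mem _)), ?_⟩
    have e2 : gf p n (2 * i + 1) - (-1) ^ n * -1 = p * (K * (1 / (2 * i + 1))) - (K - (-1) ^ n) := by
      rw [e1, hpq]
      have := hu.1
      field_simp
      ring
    rw [e2]
    exact ((I_p (p := p)).mulR (mul_mem h2.1 m1)).sub h2.2.2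

/-- the alternating sum at an integer `v` -/
theorem Pi_eq (hl : StmtLeg) (hpn : p = 2 * n + 1) (h3 : 3 < p) (v : ℤ) :
    EQ p 2 (∑ k ∈ range p, eps k * P v k) (gf p n n * (v : ℚ) ^ n + (-1) ^ n * (p * LL p (-v))) := by
  have h1 := sum_lem (p := p) (n := n) hpn (f := cf n) (g := gf p n) (s := (-1) ^ n) (y := (v : ℚ))
    (int_mem v) (neg_mem' n) (fun i hi => by
      rw [gf]
      have : (p : ℚ) ≠ 0 := p_ne
      field_simp) (fun i hi => gf_eq hpn h3 hi)
  have h2 := leg_cf hl v n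
  rw [← hpn] at h2
  rw [h2]
  exact h1

theorem P_one (k : ℕ) : P 1 k = 1 := by
  induction k using Nat.twoStepInduction with
  | zero => rw [P]
  | one => rw [P]
  | more k ih1 ih2 =>
    rw [P, ih1, ih2]
    have : (k : ℚ) + 2 ≠ 0 := by positivity
    field_simp
    ring

theorem eps_sum (n : ℕ) : ∑ k ∈ range (2 * n + 1), eps k = 1 := by
  induction n with
  | zero => simp [eps]
  | succ n ih =>
    rw [show 2 * (n + 1) + 1 = 2 * n + 1 + 1 + 1 by ring, sum_range_succ, sum_range_succ, ih,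
      eps_odd, show 2 * n + 1 + 1 = 2 * (n + 1) by ring, eps_even, pow_succ]
    ring

/-- `E = (3/p)` in the form `(-1)^n s3` modulo `p^2` -/
theorem E_eq (hl : StmtLeg) (hv : StmtVal) (hpn : p = 2 * n + 1) (h3 : 3 < p) :
    EQ p 2 (∑ k ∈ range p, eps k * P 3 k) ((-1) ^ n * s3 p) := by
  obtain ⟨-, v1, v3, -, -⟩ := hv p n hpn h3
  have h1 := Pi_eq hl hpn h3 1
  have h2 := Pi_eq hl hpn h3 3
  have h4 : ∑ k ∈ range p, eps k * P ((1 : ℤ) : ℚ) k = 1 := by
    rw [← eps_sum n, ← hpn]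
    exact sum_congr rfl fun k _ => by rw [Int.cast_one, P_one, mul_one]
  rw [h4] at h1
  push_cast at h1 h2
  rw [one_pow, mul_one] at h1
  -- `p LL(-1) = 0`
  have g1 : EQ p 2 (p * LL p (-1)) 0 := by
    have := v1.sub (EQ.refl (k := 2) (neg_mem' (p := p) n))
    have e : (-1 : ℚ) ^ n + p * LL p (-1) - (-1) ^ n = p * LL p (-1) := by ring
    rw [e, sub_self] at this
    exact this
  have g2 : EQ p 2 (gf p n n) 1 := by
    have := h1.symm.sub ((EQ.refl (k := 2) (neg_mem' (p := p) n)).mul g1)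
    have e : gf p n n + (-1) ^ n * (p * LL p (-1)) - (-1) ^ n * (p * LL p (-1)) = gf p n n := by ring
    have e' : (1 : ℚ) - (-1) ^ n * 0 = 1 := by ring
    rwa [e, e'] at this
  have m3 : (3 : ℚ) ^ n ∈ Zp p := pow_mem n3 n
  have mL : (p : ℚ) * LL p (-3) ∈ Zp p := mul_mem p_mem (LL_mem hpn (neg_mem n3))
  refine h2.trans ?_
  have g3 := (g2.mul (EQ.refl m3)).add ((EQ.refl (k := 2) (neg_mem' (p := p) n)).mul (EQ.refl mL))
  refine g3.trans ?_
  have g4 := (EQ.refl (k := 2) (neg_mem' (p := p) n)).mul v3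
  have e : (-1 : ℚ) ^ n * ((-3) ^ n + p * LL p (-3)) = 1 * 3 ^ n + (-1) ^ n * (p * LL p (-3)) := by
    have : (-3 : ℚ) ^ n = (-1) ^ n * 3 ^ n := by rw [← mul_pow]; norm_num
    rw [this]
    have h : ((-1 : ℚ)) ^ n * (-1) ^ n = 1 := by rw [← mul_pow]; norm_num
    linear_combination (3 : ℚ) ^ n * h
  rwa [e] at g4

/-- `P_{p-1}(3) + P_p(3) = 4` modulo `p` -/
theorem PP_eq (hd : StmtDel) (hpn : p = 2 * n + 1) (h3 : 3 < p) :
    EQ p 1 (P 3 (2 * n) + P 3 (2 * n + 1)) 4 := by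
  have h1 : EQ p 1 (P 3 (2 * n)) 1 := by
    rw [hd, sum_range_succ']
    have : ∀ i ∈ range (2 * n), I p 1 ((((2 * n + (i + 1)).choose (2 * (i + 1)) *
        (2 * (i + 1)).choose (i + 1) : ℕ)) : ℚ) := by
      intro i hi
      have hi' := mem_range.1 hi
      refine I_nat ?_
      rw [Nat.choose_mul (by omega)]
      refine Dvd.dvd.mul_right ?_ _
      have := Nat.Prime.dvd_choose_add hp.out (a := i + 1) (b := 2 * n) (by omega) (by omega) (by omega)
      rwa [show i + 1 + 2 * n = 2 * n + (i + 1) by ring] at this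
    have h2 := I.sum this
    refine ⟨add_mem h2.mem (by exact_mod_cast nat_mem (p := p) _), one_mem _, ?_⟩
    simp only [add_zero, mul_zero, Nat.choose_zero_right, mul_one, Nat.cast_one, add_sub_cancel_right]
    exact h2
  have h2 : EQ p 1 (P 3 (2 * n + 1)) 3 := by
    rw [hd, sum_range_succ', sum_range_succ]
    have : ∀ i ∈ range (2 * n), I p 1 ((((2 * n + 1 + (i + 1)).choose (2 * (i + 1)) *
        (2 * (i + 1)).choose (i + 1) : ℕ)) : ℚ) := by
      intro i hi
      have hi' := mem_range.1 hi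
      refine I_nat ?_
      rw [Nat.choose_mul (by omega)]
      refine Dvd.dvd.mul_left ?_ _
      have e : 2 * (i + 1) - (i + 1) = i + 1 := by omega
      have e' : 2 * n + 1 + (i + 1) - (i + 1) = p := by omega
      rw [e, e']
      exact hp.out.dvd_choose_self (by omega) (by omega)
    have h2 := I.sum this
    have h4 := (choose_2p (p := p)).mono (by norm_num : 1 ≤ 2)
    have e1 : (((2 * n + 1 + (2 * n + 1)).choose (2 * (2 * n + 1)) * (2 * (2 * n + 1)).choose (2 * n + 1) : ℕ) : ℚ)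
        = ((2 * p).choose p : ℚ) := by
      rw [← hpn, ← two_mul, Nat.choose_self, one_mul]
    rw [e1]
    have h5 := ((EQ.of_I h2).add h4).add (EQ.refl (one_mem _))
    have e2 : (0 : ℚ) + 2 + 1 = 3 := by norm_num
    rw [e2] at h5
    simpa using h5
  have := h1.add h2
  norm_num at this
  exact this

end Pool.Agent.R488.Tri
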