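import Mathlib
import Pool.Agent.R488.Tri.Exact
import Pool.Agent.R488.Tri.ModA
import Pool.Agent.R488.Tri.ModB
import Pool.Agent.R488.Tri.Lam
import Pool.Agent.R439.S4F

set_option autoImplicit false

/-!
The five congruences of MP_20e244_nt, from the values in `StmtVal`.
-/

namespace Pool.Agent.R488.Tri

open Finset Pool.Agent.R439.PL Pool.Agent.R439.PL.S4

variable {p n : ℕ} [hp : Fact p.Prime]

theorem mone_sq (n : ℕ) : ((-1 : ℚ)) ^ n * (-1) ^ n = 1 := by rw [← mul_pow]; norm_num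

theorem sixteen_U (h3 : 3 < p) (k : ℕ) : U p ((16 : ℚ) ^ k) := by
  have := four_U (p := p) h3 (2 * k)
  rw [pow_mul] at this
  norm_num at this
  exact this

/-- termwise: `C(2j,j) / 16^j = (-1)^j C(n+j,2j)` -/
theorem term16 (hpn : p = 2 * n + 1) (h3 : 3 < p) {j : ℕ} (hj : j ≤ n) :
    EQ p 2 (((2 * j).choose j : ℚ) / 16 ^ j) ((-1) ^ j * ((n + j).choose (2 * j) : ℚ)) := by
  have hu := sixteen_U (p := p) h3 j
  have h1 := (halfc (p := p) hpn hj).mul (EQ.refl (k := 2) hu.2.2)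
  have e : (-16 : ℚ) ^ j * ((n + j).choose (2 * j) : ℚ) * (16 ^ j)⁻¹ = (-1) ^ j * ((n + j).choose (2 * j) : ℚ) := by
    have : (-16 : ℚ) ^ j = (-1) ^ j * 16 ^ j := by rw [← mul_pow]; norm_num
    rw [this]
    have := hu.1
    field_simp
  rw [e, ← div_eq_mul_inv] at h1
  exact h1

theorem sum_W (hpn : p = 2 * n + 1) (h3 : 3 < p) (x : ℤ) : EQ p 2
    (∑ j ∈ range (n + 1), ((2 * j).choose j : ℚ) / 16 ^ j * (W (2 * j) x : ℚ))
    ((-1) ^ n * ((-(x : ℚ)) ^ n + p * LL p (-x))) := by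
  have h1 : EQ p 2 (∑ j ∈ range (n + 1), ((2 * j).choose j : ℚ) / 16 ^ j * (W (2 * j) x : ℚ))
      (∑ j ∈ range (n + 1), (-1) ^ j * ((n + j).choose (2 * j) : ℚ) * (W (2 * j) x : ℚ)) :=
    EQ.sum fun j hj => (term16 hpn h3 (by have := mem_range.1 hj; omega)).mul (EQ.refl (int_mem _))
  refine h1.trans ?_
  have h2 : ∑ j ∈ range (n + 1), (-1) ^ j * ((n + j).choose (2 * j) : ℚ) * (W (2 * j) x : ℚ) =
      (-1) ^ n * (∑ i ∈ range p, (((p + i).choose (2 * i + 1) : ℚ) * ((2 * i).choose i : ℚ)) * (x : ℚ) ^ i) := by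
    have h3 : ((∑ j ∈ range (n + 1), (-1 : ℤ) ^ (n + j) * ((n + j).choose (2 * j) : ℤ) * W (2 * j) x : ℤ) : ℚ)
        = ((∑ k ∈ range (2 * n + 1), ((2 * n + 1 + k).choose (2 * k + 1) : ℤ) *
          ((2 * k).choose k : ℤ) * x ^ k : ℤ) : ℚ) := by rw [W_sum]
    push_cast at h3
    rw [← hpn] at h3
    rw [← h3, mul_sum]
    refine sum_congr rfl fun j _ => ?_
    rw [pow_add]
    linear_combination (-((-1) ^ j * ((n + j).choose (2 * j) : ℚ) * (W (2 * j) x : ℚ))) * mone_sq n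
  rw [h2]
  exact (EQ.refl (neg_mem' n)).mul (theta hpn x)

theorem T41 (m : ℕ) : T m 4 1 = W m 1 := by
  have := T_eq m 2 1
  norm_num at this
  rw [this, W]
  refine sum_congr rfl fun i _ => by ring

theorem T89 (m : ℕ) : T m 8 9 = W m 3 := by
  have := T_eq m 2 3
  norm_num at this
  rw [this, W]

theorem T34 (j : ℕ) : 4 ^ j * T (2 * j) 3 4 = W (2 * j) (-4) := by
  have := T_eq (2 * j) (-1) 2
  norm_num at this
  rw [this, W, mul_sum]
  refine sum_congr rfl fun i hi => ?_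
  have hi' := mem_range.1 hi
  obtain ⟨r, hr⟩ : ∃ r, 2 * j = i + r := ⟨2 * j - i, by omega⟩
  have e1 : (4 : ℤ) ^ j = 2 ^ i * 2 ^ r := by rw [← pow_add, ← hr, pow_mul]; norm_num
  have e2 : 2 * j - i = r := by omega
  have e3 : (-1 : ℤ) ^ r = (-1) ^ i := by
    have : (-1 : ℤ) ^ (i + r) = 1 := by rw [← hr, pow_mul]; norm_num
    rw [pow_add] at this
    have h4 : ((-1 : ℤ)) ^ i * (-1) ^ i = 1 := by rw [← mul_pow]; norm_num
    linear_combination (-1 : ℤ) ^ i * this - (-1 : ℤ) ^ r * h4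
  have e4 : (-4 : ℤ) ^ i = (-1) ^ i * (2 ^ i * 2 ^ i) := by rw [← mul_pow, ← mul_pow]; norm_num
  rw [e2, e1, e3, e4]
  ring

theorem T11 (m : ℕ) : T m 1 1 = ∑ i ∈ range (m + 1), (m.choose i : ℤ) * 3 ^ (m - i) *
    ((-1) ^ i * ((2 * i).choose i : ℤ)) := by
  have := T_eq m 3 (-1)
  norm_num at this
  rw [this]

/-- the second congruence -/
theorem c2 (hv : StmtVal) (hpn : p = 2 * n + 1) (h3 : 3 < p) : EQ p 2
    (∑ j ∈ range (n + 1), (T (2 * j) 4 1 : ℚ) * ((2 * j).choose j : ℚ) / 16 ^ j) 1 := by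
  have h1 := sum_W (p := p) hpn h3 1
  have h2 := (EQ.refl (k := 2) (neg_mem' (p := p) n)).mul (hv p n hpn h3).2.1
  rw [mone_sq] at h2
  push_cast at h1
  have h4 := h1.trans h2
  have e : ∑ j ∈ range (n + 1), (T (2 * j) 4 1 : ℚ) * ((2 * j).choose j : ℚ) / 16 ^ j =
    ∑ j ∈ range (n + 1), ((2 * j).choose j : ℚ) / 16 ^ j * (W (2 * j) 1 : ℚ) :=
    sum_congr rfl fun j _ => by rw [T41]; ring
  rw [e]; exact h4

/-- the fifth congruence -/
theorem c5 (hv : StmtVal) (hpn : p = 2 * n + 1) (h3 : 3 < p) : EQ p 2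
    (∑ j ∈ range (n + 1), (T (2 * j) 8 9 : ℚ) * ((2 * j).choose j : ℚ) / 16 ^ j) ((-1) ^ n * s3 p) := by
  have h1 := sum_W (p := p) hpn h3 3
  have h2 := (EQ.refl (k := 2) (neg_mem' (p := p) n)).mul (hv p n hpn h3).2.2.1
  push_cast at h1
  have h4 := h1.trans h2
  have e : ∑ j ∈ range (n + 1), (T (2 * j) 8 9 : ℚ) * ((2 * j).choose j : ℚ) / 16 ^ j =
    ∑ j ∈ range (n + 1), ((2 * j).choose j : ℚ) / 16 ^ j * (W (2 * j) 3 : ℚ) :=
    sum_congr rfl fun j _ => by rw [T89]; ring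
  rw [e]; exact h4

/-- the fourth congruence -/
theorem c4 (hv : StmtVal) (hpn : p = 2 * n + 1) (h3 : 3 < p) : EQ p 2
    (∑ j ∈ range (n + 1), (T (2 * j) 3 4 : ℚ) * ((2 * j).choose j : ℚ) / 4 ^ j)
    ((7 - 3 ^ p) / 4 * (-1) ^ n) := by
  have h1 := sum_W (p := p) hpn h3 (-4)
  have h2 := (EQ.refl (k := 2) (neg_mem' (p := p) n)).mul (hv p n hpn h3).2.2.2.1
  push_cast at h1
  rw [neg_neg] at h1
  have h4 := h1.trans h2
  have e : ∑ j ∈ range (n + 1), (T (2 * j) 3 4 : ℚ) * ((2 * j).choose j : ℚ) / 4 ^ j =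
    ∑ j ∈ range (n + 1), ((2 * j).choose j : ℚ) / 16 ^ j * (W (2 * j) (-4) : ℚ) :=
    sum_congr rfl fun j _ => by
      rw [← T34]
      have : (16 : ℚ) ^ j = 4 ^ j * 4 ^ j := by rw [← mul_pow]; norm_num
      rw [this]; push_cast; field_simp
  rw [e, mul_comm _ ((-1 : ℚ) ^ n)]; exact h4

/-- the third congruence -/
theorem c3 (hl : StmtLeg) (hd : StmtDel) (hv : StmtVal) (hpn : p = 2 * n + 1) (h3 : 3 < p) : EQ p 2
    (∑ j ∈ range (n + 1), (T (2 * j) 4 1 : ℚ) * (((2 * j).choose j : ℚ) / (j + 1)) / 16 ^ j)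
    (4 / 3 * ((-1) ^ n * s3 p - p * (-1) ^ n)) := by
  have hpq : (p : ℚ) = 2 * n + 1 := by exact_mod_cast hpn
  set D : ℚ := ∑ j ∈ range (n + 1), ((n + j).choose (2 * j) : ℚ) * ((-1) ^ j * (W (2 * j) 1 : ℚ)) / ((j : ℚ) + 1)
    with hD
  have h1 : EQ p 2 (∑ j ∈ range (n + 1), (T (2 * j) 4 1 : ℚ) * (((2 * j).choose j : ℚ) / (j + 1)) / 16 ^ j) D := by
    refine EQ.sum fun j hj => ?_
    have hj' := mem_range.1 hj
    have hu := U_nat (p := p) (k := j + 1) (by omega) (by omega)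
    have h2 := ((term16 (p := p) (j := j) hpn h3 (by omega)).mul (EQ.refl (k := 2) (int_mem (W (2 * j) 1)))).mul
      (EQ.refl (k := 2) hu.2.2)
    push_cast at h2
    have e1 : (T (2 * j) 4 1 : ℚ) * (((2 * j).choose j : ℚ) / (j + 1)) / 16 ^ j =
      ((2 * j).choose j : ℚ) / 16 ^ j * (W (2 * j) 1 : ℚ) * ((j : ℚ) + 1)⁻¹ := by rw [T41]; ring
    have e2 : ((n + j).choose (2 * j) : ℚ) * ((-1) ^ j * (W (2 * j) 1 : ℚ)) / ((j : ℚ) + 1) =
      (-1) ^ j * ((n + j).choose (2 * j) : ℚ) * (W (2 * j) 1 : ℚ) * ((j : ℚ) + 1)⁻¹ := by ring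
    rw [e1, e2]
    exact h2
  refine h1.trans ?_
  have h2 := catal_AA hd n
  rw [← hD] at h2
  have h4 := AE n
  have h5 := E_eq hl hv hpn h3 (p := p)
  have h6 := PP_eq hd hpn h3 (p := p)
  rw [show range p = range (2 * n + 1) by rw [hpn]] at h5
  set E := ∑ k ∈ range (2 * n + 1), eps k * P 3 k with hE
  set Q := P 3 (2 * n) + P 3 (2 * n + 1) with hQ
  have m4 : U p (4 : ℚ) := by have := four_U (p := p) h3 1; rwa [pow_one] at this
  have m3 : U p (3 : ℚ) := by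
    have := U_nat (p := p) (k := 3) (by norm_num) h3
    exact_mod_cast this
  have mD : D ∈ Zp p := h1.2.1
  have ms : s3 p ∈ Zp p := by
    rw [s3]; split_ifs
    · exact one_mem _
    · exact neg_mem (one_mem _)
  -- `4 D = (p^2 - 1)⁻¹ ...`
  have e1 : D - 4 / 3 * ((-1) ^ n * s3 p - p * (-1) ^ n) = (p : ℚ) ^ 2 * D +
      4 * (3 : ℚ)⁻¹ * (E - (-1) ^ n * s3 p) - 3⁻¹ * ((-1) ^ n * (p * (Q - 4))) := by
    rw [hpq] at *
    field_simp
    linear_combination (-12) * h2 - 4 * h4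
  have mm := neg_mem' (p := p) n
  refine ⟨mD, ?_, ?_⟩
  · rw [div_eq_mul_inv]
    exact mul_mem (mul_mem m4.2.1 m3.2.2) (sub_mem (mul_mem mm ms) (mul_mem p_mem mm))
  · rw [e1]
    refine ((I.add ⟨D, mD, rfl⟩ (h5.2.2.mulL (mul_mem m4.2.1 m3.2.2))).sub ?_)
    exact (((I_p (p := p)).mul h6.2.2).mulL mm).mulL m3.2.2

end Pool.Agent.R488.Tri
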