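import Pool.Agent.R488.Tri.Defs

set_option autoImplicit false

/-!
TRI-VAL: values of the two sums and the resulting congruences (helper91).
-/

namespace Pool.Agent.R488.Tri

open Finset Pool.Agent.R439.PL

namespace V

lemma OO_succ (k : ℕ) (y : ℚ) : OO (k + 1) y = EV k y + OO k y := by
  unfold OO EV
  rw [Finset.sum_range_succ, Nat.choose_eq_zero_of_lt (show k + 1 < 2 * (k + 1) + 1 by omega),
    Nat.cast_zero, zero_mul, add_zero, ← Finset.sum_add_distrib]
  refine Finset.sum_congr rfl fun i _ => ?_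
  rw [Nat.choose_succ_succ, Nat.cast_add]
  ring

lemma EV_succ (k : ℕ) (y : ℚ) : EV (k + 1) y = EV k y + y * OO k y := by
  have h1 : ∀ m, EV m y = 1 + ∑ i ∈ range m, (m.choose (2 * i + 2) : ℚ) * y ^ (i + 1) := by
    intro m
    unfold EV
    rw [Finset.sum_range_succ', add_comm]
    simp only [mul_zero, Nat.choose_zero_right, Nat.cast_one, pow_zero, mul_one]
    rfl
  rw [h1 (k + 1), h1 k]
  unfold OO
  have h2 : ∑ i ∈ range k, (k.choose (2 * i + 2) : ℚ) * y ^ (i + 1) =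
      ∑ i ∈ range (k + 1), (k.choose (2 * i + 2) : ℚ) * y ^ (i + 1) := by
    rw [Finset.sum_range_succ, Nat.choose_eq_zero_of_lt (show k < 2 * k + 2 by omega),
      Nat.cast_zero, zero_mul, add_zero]
  rw [h2, Finset.mul_sum, add_assoc, ← Finset.sum_add_distrib]
  congr 1
  refine Finset.sum_congr rfl fun i _ => ?_
  rw [show 2 * i + 2 = (2 * i + 1) + 1 by rfl, Nat.choose_succ_succ, Nat.cast_add]
  ring

lemma EV_zero (y : ℚ) : EV 0 y = 1 := by simp [EV]

lemma OO_zero (y : ℚ) : OO 0 y = 0 := by simp [OO]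

lemma at_one (k : ℕ) : EV (k + 1) 1 = 2 ^ k ∧ OO (k + 1) 1 = 2 ^ k := by
  induction k with
  | zero =>
    rw [EV_succ, OO_succ, EV_zero, OO_zero]
    norm_num
  | succ k ih =>
    rw [EV_succ (k + 1), OO_succ (k + 1), ih.1, ih.2, pow_succ]
    constructor <;> ring

lemma at_four (k : ℕ) : EV k 4 = (3 ^ k + (-1) ^ k) / 2 ∧ OO k 4 = (3 ^ k - (-1) ^ k) / 4 := by
  induction k with
  | zero =>
    rw [EV_zero, OO_zero]
    norm_num
  | succ k ih =>
    rw [EV_succ, OO_succ, ih.1, ih.2, pow_succ, pow_succ]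
    constructor <;> ring

lemma at_neg_three (q : ℕ) : (EV (6 * q) (-3) = 64 ^ q ∧ OO (6 * q) (-3) = 0) := by
  induction q with
  | zero => rw [mul_zero, EV_zero, OO_zero]; norm_num
  | succ q ih =>
    rw [show 6 * (q + 1) = 6 * q + 1 + 1 + 1 + 1 + 1 + 1 by ring]
    simp only [EV_succ, OO_succ, ih.1, ih.2]
    rw [pow_succ]
    constructor <;> ring

lemma at_neg_one (q : ℕ) : (EV (4 * q) (-1) = (-4) ^ q ∧ OO (4 * q) (-1) = 0) := by
  induction q with
  | zero => rw [mul_zero, EV_zero, OO_zero]; norm_num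
  | succ q ih =>
    rw [show 4 * (q + 1) = 4 * q + 1 + 1 + 1 + 1 by ring]
    simp only [EV_succ, OO_succ, ih.1, ih.2]
    rw [pow_succ]
    constructor <;> ring

variable {p : ℕ} [hp : Fact p.Prime]

lemma I_of_dvd {a : ℤ} (h : (p : ℤ) ∣ a) : I p 1 (a : ℚ) := by
  obtain ⟨c, rfl⟩ := h
  exact ⟨c, int_mem c, by push_cast; ring⟩

lemma fermat2 (h3 : 3 < p) : I p 1 ((2 : ℚ) ^ (p - 1) - 1) := by
  have h : (p : ℤ) ∣ (2 : ℤ) ^ (p - 1) - 1 := by
    have hc : IsCoprime (2 : ℤ) (p : ℤ) := by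
      rw [Int.isCoprime_iff_gcd_eq_one]
      have : Nat.Coprime 2 p := (Nat.coprime_primes Nat.prime_two hp.out).2 (by omega)
      exact this
    exact (Int.ModEq.pow_card_sub_one_eq_one hp.out hc).symm.dvd
  have := I_of_dvd h
  push_cast at this
  exact this

lemma fermat3 : I p 1 ((3 : ℚ) ^ p - 3) := by
  have h : (p : ℤ) ∣ (3 : ℤ) ^ p - 3 := by
    rw [← ZMod.intCast_zmod_eq_zero_iff_dvd]
    push_cast
    rw [ZMod.pow_card, sub_self]
  have := I_of_dvd h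
  push_cast at this
  exact this

lemma half_mem (h3 : 3 < p) : (1 / 2 : ℚ) ∈ Zp p := by
  refine ⟨1, 2, fun h => ?_, by norm_num⟩
  have h2 : (p : ℤ) ≤ 2 := Int.le_of_dvd (by norm_num) h
  omega

lemma I_one_sub {x y : ℚ} (h : EQ p 1 x y) {z : ℚ} (hz : I p 1 z) : I p 2 (x * z - y * z) := by
  have := h.2.2.mul hz
  have e : x * z - y * z = (x - y) * z := by ring
  rw [e]; exact this

lemma OO_mod {n : ℕ} (hpn : p = 2 * n + 1) (y : ℤ) : EQ p 1 (OO p (y : ℚ)) ((y : ℚ) ^ n) := by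
  have hy : ∀ i : ℕ, ((y : ℚ) ^ i) ∈ Zp p := fun i => pow_mem (int_mem y) i
  have hO : OO p (y : ℚ) ∈ Zp p := by
    unfold OO
    exact sum_mem fun i _ => mul_mem (nat_mem _) (hy i)
  refine ⟨hO, hy n, ?_⟩
  unfold OO
  have hn : n ∈ range (p + 1) := Finset.mem_range.2 (by omega)
  rw [← Finset.add_sum_erase _ _ hn]
  have e : (p.choose (2 * n + 1) : ℚ) * (y : ℚ) ^ n = (y : ℚ) ^ n := by
    rw [← hpn, Nat.choose_self, Nat.cast_one, one_mul]
  rw [e, add_sub_cancel_left]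
  refine I.sum fun i hi => ?_
  have hne : i ≠ n := Finset.ne_of_mem_erase hi
  refine I.mulR ?_ (hy i)
  rcases lt_or_ge p (2 * i + 1) with h | h
  · rw [Nat.choose_eq_zero_of_lt h, Nat.cast_zero]; exact I.zero
  · have hd : p ∣ p.choose (2 * i + 1) := hp.out.dvd_choose_self (by omega) (by omega)
    have : (p : ℤ) ∣ ((p.choose (2 * i + 1) : ℕ) : ℤ) := by exact_mod_cast hd
    have := I_of_dvd this
    rwa [Int.cast_natCast] at this

lemma neg_three_vals {n : ℕ} (hpn : p = 2 * n + 1) (h3 : 3 < p) :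
    EV p (-3) = 2 ^ (p - 1) ∧ OO p (-3) = s3 p * 2 ^ (p - 1) := by
  have hmod : p % 6 = 1 ∨ p % 6 = 5 := by
    have h1 : p % 3 ≠ 0 := by
      intro h
      have : 3 ∣ p := Nat.dvd_of_mod_eq_zero h
      rcases (Nat.dvd_prime hp.out).1 this with h' | h' <;> omega
    omega
  rcases hmod with h | h
  · obtain ⟨q, hq⟩ : ∃ q, p = 6 * q + 1 := ⟨p / 6, by omega⟩
    have hs : s3 p = 1 := by unfold s3; rw [if_pos (by omega)]
    obtain ⟨h1, h2⟩ := at_neg_three q
    have e : (2 : ℚ) ^ (p - 1) = 64 ^ q := by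
      rw [hq, Nat.add_sub_cancel, pow_mul]; norm_num
    rw [hs, e, hq, EV_succ, OO_succ, h1, h2]
    constructor <;> ring
  · obtain ⟨q, hq⟩ : ∃ q, p = 6 * q + 5 := ⟨p / 6, by omega⟩
    have hs : s3 p = -1 := by unfold s3; rw [if_neg (by omega)]
    obtain ⟨h1, h2⟩ := at_neg_three q
    have e : (2 : ℚ) ^ (p - 1) = 16 * 64 ^ q := by
      rw [hq, show 6 * q + 5 - 1 = 6 * q + 4 by omega, pow_add, pow_mul]; norm_num; ring
    rw [hs, e, hq, show 6 * q + 5 = 6 * q + 1 + 1 + 1 + 1 + 1 by ring]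
    simp only [EV_succ, OO_succ, h1, h2]
    constructor <;> ring

lemma s3_mem : s3 p ∈ Zp p := by
  unfold s3
  split_ifs
  · exact one_mem _
  · exact neg_mem (one_mem _)

end V

open V

theorem val (h : StmtLam) : StmtVal := by
  intro p n hp hpn h3
  have f2 := fermat2 (p := p) h3
  have f3 := fermat3 (p := p)
  have hneg := neg_three_vals (p := p) hpn h3
  have h2m : ((2 : ℚ) ^ (p - 1)) ∈ Zp p := pow_mem (by exact_mod_cast nat_mem (p := p) 2) _
  have h5 : EQ p 1 ((-3 : ℚ) ^ n) (s3 p) := by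
    have h1 := OO_mod (p := p) hpn (-3)
    push_cast at h1
    rw [hneg.2] at h1
    refine h1.symm.trans ⟨mul_mem s3_mem h2m, s3_mem, ?_⟩
    have e : s3 p * 2 ^ (p - 1) - s3 p = s3 p * (2 ^ (p - 1) - 1) := by ring
    rw [e]
    exact f2.mulL s3_mem
  refine ⟨?_, ?_, ?_, ?_, h5⟩
  · have h1 := h p n hpn h3 1
    push_cast at h1
    obtain ⟨k, hk⟩ : ∃ k, p = k + 1 := ⟨2 * n, hpn⟩
    have h2 := at_one k
    rw [← hk] at h2
    rw [h2.1, h2.2, one_pow, one_mul] at h1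
    have e : (2 : ℚ) ^ k - (2 ^ k - 1) = 1 := by ring
    rw [e] at h1
    rw [one_pow]
    exact h1
  · have h1 := h p n hpn h3 (-1)
    push_cast at h1
    have e : OO p (-1) - (-1) ^ n * (EV p (-1) - 1) = (-1) ^ n := by
      rcases Nat.even_or_odd' n with ⟨q, hq | hq⟩
      · obtain ⟨g1, g2⟩ := at_neg_one q
        have hp4 : p = 4 * q + 1 := by omega
        rw [hp4, EV_succ, OO_succ, g1, g2, hq, pow_mul]
        norm_num
      · obtain ⟨g1, g2⟩ := at_neg_one q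
        have hp4 : p = 4 * q + 1 + 1 + 1 := by omega
        rw [hp4]
        simp only [EV_succ, OO_succ, g1, g2]
        rw [hq, pow_succ, pow_mul]
        norm_num
        ring
    rwa [e] at h1
  · have h1 := h p n hpn h3 (-3)
    push_cast at h1
    rw [hneg.1, hneg.2] at h1
    refine h1.trans ⟨h1.2.1, s3_mem, ?_⟩
    have e : s3 p * 2 ^ (p - 1) - (-3 : ℚ) ^ n * (2 ^ (p - 1) - 1) - s3 p =
        -((-3 : ℚ) ^ n * (2 ^ (p - 1) - 1) - s3 p * (2 ^ (p - 1) - 1)) := by ring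
    rw [e]
    exact (I_one_sub h5 f2).neg
  · have h1 := h p n hpn h3 4
    push_cast at h1
    obtain ⟨g1, g2⟩ := at_four p
    have hodd : (-1 : ℚ) ^ p = -1 := by
      rw [hpn, pow_succ, pow_mul]; norm_num
    rw [g1, g2, hodd] at h1
    have h4 : EQ p 1 ((4 : ℚ) ^ n) 1 := by
      refine ⟨pow_mem (by exact_mod_cast nat_mem (p := p) 4) _, one_mem _, ?_⟩
      have e : (4 : ℚ) ^ n = 2 ^ (p - 1) := by
        rw [hpn, Nat.add_sub_cancel, pow_mul]; norm_num
      rw [e]; exact f2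
    have hz : I p 1 ((3 ^ p + -1) / 2 - 1 : ℚ) := by
      have e : ((3 ^ p + -1) / 2 - 1 : ℚ) = (1 / 2) * (3 ^ p - 3) := by ring
      rw [e]; exact f3.mulL (half_mem h3)
    have hm : ((7 - 3 ^ p) / 4 : ℚ) ∈ Zp p := by
      have e : ((7 - 3 ^ p) / 4 : ℚ) = (1 / 2) * (1 / 2) * (7 - 3 ^ p) := by ring
      rw [e]
      refine mul_mem (mul_mem (half_mem h3) (half_mem h3)) (sub_mem ?_ (pow_mem ?_ _))
      · exact_mod_cast nat_mem (p := p) 7
      · exact_mod_cast nat_mem (p := p) 3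
    refine h1.trans ⟨h1.2.1, hm, ?_⟩
    have e : (3 ^ p - -1) / 4 - 4 ^ n * ((3 ^ p + -1) / 2 - 1) - (7 - 3 ^ p) / 4 =
        -(4 ^ n * ((3 ^ p + -1) / 2 - 1) - 1 * ((3 ^ p + -1) / 2 - 1) : ℚ) := by ring
    rw [e]
    exact (I_one_sub h4 hz).neg

end Pool.Agent.R488.Tri
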