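import Mathlib
import Pool.Agent.R488.Tri.ModC
import Pool.Agent.R488.Tri.Leg
import Pool.Agent.R488.Tri.Del
import Pool.Agent.R488.Tri.Val

set_option autoImplicit false

/-!
The first congruence of MP_20e244_nt.
-/

namespace Pool.Agent.R488.Tri

open Finset Pool.Agent.R439.PL Pool.Agent.R439.PL.S4

variable {p n : ℕ} [hp : Fact p.Prime]

/-- `∑_k C(n,k+1) u^(k+1)/(k+1) = ∑_k ((1+u)^(k+1) - 1)/(k+1)` -/
theorem binlog (u : ℚ) (n : ℕ) : ∑ k ∈ range n, (n.choose (k + 1) : ℚ) * u ^ (k + 1) / (k + 1) =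
    ∑ k ∈ range n, ((1 + u) ^ (k + 1) - 1) / ((k : ℚ) + 1) := by
  induction n with
  | zero => simp
  | succ n ih =>
    rw [sum_range_succ (fun k : ℕ => ((1 + u) ^ (k + 1) - 1) / ((k : ℚ) + 1)), ← ih]
    have h1 : (1 + u) ^ (n + 1) = ∑ k ∈ range (n + 1), ((n + 1).choose (k + 1) : ℚ) * u ^ (k + 1) + 1 := by
      rw [add_comm 1 u, add_pow, sum_range_succ']
      simp only [one_pow, mul_one, pow_zero, Nat.choose_zero_right, Nat.cast_one]
      congr 1
      exact sum_congr rfl fun k _ => mul_comm _ _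
    have h2 : ∀ k ∈ range (n + 1), ((n + 1).choose (k + 1) : ℚ) * u ^ (k + 1) / (k + 1) =
        (n.choose (k + 1) : ℚ) * u ^ (k + 1) / (k + 1) +
          ((n + 1).choose (k + 1) : ℚ) * u ^ (k + 1) / ((n : ℚ) + 1) := by
      intro k _
      have h3 := Nat.add_one_mul_choose_eq n k
      have h4 : ((n : ℚ) + 1) * (n.choose k : ℚ) = ((n + 1).choose (k + 1) : ℚ) * (k + 1) := by exact_mod_cast h3
      have h5 : ((n + 1).choose (k + 1) : ℚ) = n.choose k + n.choose (k + 1) := by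
        exact_mod_cast Nat.choose_succ_succ n k
      have a1 : (k : ℚ) + 1 ≠ 0 := by positivity
      have a2 : (n : ℚ) + 1 ≠ 0 := by positivity
      field_simp
      linear_combination u ^ (k + 1) * (h4 + ((n : ℚ) + 1) * h5)
    rw [sum_congr rfl h2, sum_add_distrib, sum_range_succ (fun k : ℕ => (n.choose (k + 1) : ℚ) * u ^ (k + 1) / (k + 1)),
      Nat.choose_succ_self, ← sum_div, h1]
    simp

/-- `σ_i = ∑_{j<p} C(2j,j) C(j,i)/4^j` -/
def sg (p i : ℕ) : ℚ := ∑ j ∈ range p, ((2 * j).choose j : ℚ) * (j.choose i : ℚ) / 4 ^ j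

def gg (p i : ℕ) : ℚ := 2 * ((p - 1).choose i : ℚ) * ((2 * p).choose p : ℚ) / 4 ^ p

theorem sg_gg {i : ℕ} (hi : i < p) : (2 * (i : ℚ) + 1) * sg p i = p * gg p i := by
  rw [sg, lemG, gg]
  have h1 : ((p : ℚ) - i) * (p.choose i : ℚ) = p * ((p - 1).choose i : ℚ) := by
    obtain ⟨q, hq⟩ : ∃ q, p = q + 1 := ⟨p - 1, by omega⟩
    have h := Nat.choose_mul_succ_eq q i
    rw [← hq] at h
    have h2 : ((q.choose i * p : ℕ) : ℚ) = ((p.choose i * (p - i) : ℕ) : ℚ) := by rw [h]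
    rw [Nat.cast_mul, Nat.cast_mul, Nat.cast_sub (by omega)] at h2
    rw [show p - 1 = q by omega]
    linear_combination (-1) * h2
  linear_combination (2 * ((2 * p).choose p : ℚ) / 4 ^ p) * h1

theorem gg_eq (hpn : p = 2 * n + 1) (h3 : 3 < p) {i : ℕ} (hi : i < p) : EQ p 1 (gg p i) (1 * (-1) ^ i) := by
  have u4 := four_U (p := p) h3 p
  have h4 : EQ p 1 ((4 : ℚ) ^ p) 4 := by
    have := ((four_pow (p := p) hpn h3).mul (four_pow (p := p) hpn h3)).mul (EQ.refl (k := 1) (int_mem 4))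
    have e : (4 : ℚ) ^ n * 4 ^ n * (4 : ℤ) = 4 ^ p := by
      rw [hpn, pow_succ, two_mul, pow_add]; push_cast; ring
    rw [e] at this
    norm_num at this
    exact this
  have h5 := ((EQ.refl (k := 1) (int_mem (p := p) 2)).mul (choose_pm1 (p := p) i hi)).mul
    ((choose_2p (p := p)).mono (by norm_num : 1 ≤ 2))
  have h6 := h5.div (by norm_num) h4 u4
  rw [gg]
  push_cast at h6
  have e : (2 : ℚ) * (-1) ^ i * 2 / 4 = 1 * (-1) ^ i := by ring
  rw [e] at h6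
  exact h6

theorem sg_alt (hp0 : 0 < p) : ∑ i ∈ range p, sg p i * (-1) ^ i = 1 := by
  simp only [sg, sum_mul]
  rw [sum_comm]
  have h1 : ∀ j ∈ range p, ∑ i ∈ range p, ((2 * j).choose j : ℚ) * (j.choose i : ℚ) / 4 ^ j * (-1) ^ i =
      if j = 0 then 1 else 0 := by
    intro j hj
    have hj' := mem_range.1 hj
    have h2 : ∑ i ∈ range p, ((2 * j).choose j : ℚ) * (j.choose i : ℚ) / 4 ^ j * (-1) ^ i =
        ((2 * j).choose j : ℚ) / 4 ^ j * ∑ i ∈ range (j + 1), (-1 : ℚ) ^ i * (j.choose i : ℚ) := by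
      rw [mul_sum, ← sum_subset (range_subset_range.2 (show j + 1 ≤ p by omega))]
      · exact sum_congr rfl fun i _ => by ring
      · intro i _ hi
        rw [Nat.choose_eq_zero_of_lt (show j < i by
          have := mt mem_range.2 hi; omega)]
        simp
    rw [h2]
    have h3 : ∑ i ∈ range (j + 1), (-1 : ℚ) ^ i * (j.choose i : ℚ) = if j = 0 then 1 else 0 := by
      have := Int.alternating_sum_range_choose (n := j)
      exact_mod_cast this
    rw [h3]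
    split_ifs with h
    · subst h; simp
    · simp
  rw [sum_congr rfl h1, sum_ite_eq', if_pos (mem_range.2 hp0)]

/-- `σ_n = (-1)^n` modulo `p^2` -/
theorem sg_mid (hv : StmtVal) (hpn : p = 2 * n + 1) (h3 : 3 < p) : EQ p 2 (sg p n) ((-1) ^ n) := by
  have h1 := sum_lem (p := p) (n := n) hpn (f := sg p) (g := gg p) (s := 1) (y := -1)
    (neg_mem (one_mem _)) (one_mem _) (fun i hi => sg_gg hi) (fun i hi => gg_eq hpn h3 hi)
  rw [sg_alt (by omega)] at h1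
  have h2 : gg p n = sg p n := by
    have := sg_gg (p := p) (i := n) (by omega)
    have hpq : (2 * (n : ℚ) + 1) = p := by exact_mod_cast hpn.symm
    rw [hpq] at this
    exact (mul_left_cancel₀ p_ne this).symm
  rw [h2, neg_neg, one_mul] at h1
  have h4 := (hv p n hpn h3).1
  rw [one_pow] at h4
  have mm := neg_mem' (p := p) n
  have ms : sg p n ∈ Zp p := by
    rw [← h2]; exact (gg_eq (p := p) (i := n) hpn h3 (by omega)).1
  refine ⟨ms, mm, ?_⟩
  have e : sg p n - (-1) ^ n = -((-1) ^ n * (1 - (sg p n * (-1) ^ n + p * LL p 1))) -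
      (-1) ^ n * (1 + p * LL p 1 - 1) := by
    linear_combination (-(sg p n)) * mone_sq n
  rw [e]
  exact (h1.2.2.mulL mm).neg.sub (h4.2.2.mulL mm)


theorem at_quarter (k : ℕ) : EV k (1 / 4) = ((3 / 2) ^ k + (1 / 2) ^ k) / 2 ∧
    OO k (1 / 4) = (3 / 2) ^ k - (1 / 2) ^ k := by
  induction k with
  | zero =>
    rw [V.EV_zero, V.OO_zero]
    norm_num
  | succ k ih =>
    rw [V.EV_succ, V.OO_succ, ih.1, ih.2, pow_succ, pow_succ]
    constructor <;> ring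

theorem pmul {x y : ℚ} (h : EQ p 1 x y) : EQ p 2 (p * x) (p * y) :=
  ⟨mul_mem p_mem h.1, mul_mem p_mem h.2.1, by
    rw [← mul_sub]
    exact (I_p (p := p)).mul h.2.2⟩

/-- `C(2i,i) = (-4)^i C(n,i)` modulo `p` -/
theorem cbin (hpn : p = 2 * n + 1) {i : ℕ} (hi : i ≤ n) :
    EQ p 1 ((2 * i).choose i : ℚ) ((-4) ^ i * (n.choose i : ℚ)) := by
  have h1 := (ch_choose (p := p) hpn hi).mul (EQ.refl (k := 1) (pow_mem (int_mem (p := p) 4) i))
  push_cast at h1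
  rw [ch_C] at h1
  have e : (-1 : ℚ) ^ i * (n.choose i : ℚ) * 4 ^ i = (-4) ^ i * (n.choose i : ℚ) := by
    have : (-4 : ℚ) ^ i = (-1) ^ i * 4 ^ i := by rw [← mul_pow]; norm_num
    rw [this]; ring
  rwa [e] at h1

/-- `∑_{k<n} p/(2k+2) y^(k+1) = -(EV y - 1)` modulo `p^2` -/
theorem evsum (hpn : p = 2 * n + 1) {y : ℚ} (hy : y ∈ Zp p) :
    EQ p 2 (∑ k ∈ range n, (p : ℚ) * (1 / (2 * k + 2)) * y ^ (k + 1)) (-(EV p y - 1)) := by
  have h1 : EQ p 2 (∑ k ∈ range n, (p : ℚ) * (1 / (2 * k + 2)) * y ^ (k + 1))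
      (∑ k ∈ range n, -(p.choose (2 * k + 2) : ℚ) * y ^ (k + 1)) :=
    EQ.sum fun k hk => (eventerm hpn (mem_range.1 hk)).mul (EQ.refl (pow_mem hy _))
  rw [EV_eq hpn]
  have e : ∑ k ∈ range n, -(p.choose (2 * k + 2) : ℚ) * y ^ (k + 1) =
      -(∑ i ∈ range n, (p.choose (2 * i + 2) : ℚ) * y ^ (i + 1) + 1 - 1) := by
    rw [add_sub_cancel_right, ← sum_neg_distrib]
    exact sum_congr rfl fun k _ => by ring
  rwa [e] at h1

/-- the term of index `i = n-1-k` -/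
theorem lowterm (hpn : p = 2 * n + 1) (h3 : 3 < p) {k : ℕ} (hk : k < n) :
    EQ p 2 (((2 * (n - 1 - k)).choose (n - 1 - k) : ℚ) * (-1 / 3) ^ (n - 1 - k) * sg p (n - 1 - k))
      (-(p * (1 / (2 * k + 2)) * ((-4 / 3) ^ n * ((n.choose (k + 1) : ℚ) * (-3 / 4) ^ (k + 1))))) := by
  obtain ⟨i, hi⟩ : ∃ i, i = n - 1 - k := ⟨_, rfl⟩
  rw [← hi]
  have hin : i + (k + 1) = n := by omega
  have hpq : (p : ℚ) = 2 * n + 1 := by exact_mod_cast hpn
  have hnq : (n : ℚ) = i + (k + 1) := by exact_mod_cast hin.symm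
  have u3 : U p (3 : ℚ) := by
    have := U_nat (p := p) (k := 3) (by norm_num) h3
    exact_mod_cast this
  have u4 : U p (4 : ℚ) := by have := four_U (p := p) h3 1; rwa [pow_one] at this
  have hu := two_add_one_U (p := p) (i := i) hpn (by omega) (by omega)
  have hk2 := U_nat (p := p) (k := 2 * k + 2) (by omega) (by omega)
  push_cast at hk2
  have m3 : (-1 / 3 : ℚ) ∈ Zp p := by rw [div_eq_mul_inv]; exact mul_mem (neg_mem (one_mem _)) u3.2.2
  -- `1/(2i+1) = -1/(2k+2)` mod `p`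
  have hinv : EQ p 1 ((2 * (i : ℚ) + 1)⁻¹) (-(2 * (k : ℚ) + 2)⁻¹) := by
    refine ⟨hu.2.2, neg_mem hk2.2.2, (2 * (i : ℚ) + 1)⁻¹ * (2 * (k : ℚ) + 2)⁻¹, mul_mem hu.2.2 hk2.2.2, ?_⟩
    have a1 := hu.1
    have a2 := hk2.1
    rw [hpq, hnq]
    field_simp
    ring
  have e1 : ((2 * i).choose i : ℚ) * (-1 / 3) ^ i * sg p i =
      p * (((2 * i).choose i : ℚ) * (-1 / 3) ^ i * (gg p i * (2 * (i : ℚ) + 1)⁻¹)) := by
    have h1 := sg_gg (p := p) (i := i) (by omega)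
    have a1 := hu.1
    have : sg p i = p * gg p i * (2 * (i : ℚ) + 1)⁻¹ := by
      rw [← h1]; field_simp
    rw [this]; ring
  rw [e1]
  have h2 := pmul (((cbin (p := p) hpn (i := i) (by omega)).mul (EQ.refl (k := 1) (pow_mem m3 i))).mul
    ((gg_eq (p := p) (i := i) hpn h3 (by omega)).mul hinv))
  have e2 : (p : ℚ) * ((-4) ^ i * (n.choose i : ℚ) * (-1 / 3) ^ i * (1 * (-1) ^ i * -(2 * (k : ℚ) + 2)⁻¹)) =
      -(p * (1 / (2 * k + 2)) * ((-4 / 3) ^ n * ((n.choose (k + 1) : ℚ) * (-3 / 4) ^ (k + 1)))) := by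
    have h5 : n.choose (k + 1) = n.choose i := by
      rw [← Nat.choose_symm_of_eq_add (show n = i + (k + 1) by omega)]
    have h6 : (-4 / 3 : ℚ) ^ n = (-4 / 3) ^ i * (-4 / 3) ^ (k + 1) := by rw [← pow_add, hin]
    have h7 : (-4 / 3 : ℚ) ^ (k + 1) * (-3 / 4) ^ (k + 1) = 1 := by rw [← mul_pow]; norm_num
    have h8 : (-4 : ℚ) ^ i * (-1 / 3) ^ i * (-1) ^ i = (-4 / 3) ^ i := by
      rw [← mul_pow, ← mul_pow]; norm_num
    rw [h5, h6]
    have a2 := hk2.1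
    linear_combination (-(p : ℚ) * (n.choose i : ℚ) * (2 * (k : ℚ) + 2)⁻¹) * h8 +
      ((p : ℚ) * (n.choose i : ℚ) * (2 * (k : ℚ) + 2)⁻¹ * (-4 / 3) ^ i) * h7
  rwa [e2] at h2

/-- the terms with `i < n` -/
theorem lowsum (hpn : p = 2 * n + 1) (h3 : 3 < p) :
    EQ p 2 (∑ i ∈ range n, ((2 * i).choose i : ℚ) * (-1 / 3) ^ i * sg p i)
      ((-4 / 3) ^ n * (EV p (1 / 4) - EV p 1)) := by
  have u3 : U p (3 : ℚ) := by
    have := U_nat (p := p) (k := 3) (by norm_num) h3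
    exact_mod_cast this
  have u4 : U p (4 : ℚ) := by have := four_U (p := p) h3 1; rwa [pow_one] at this
  have m4 : (1 / 4 : ℚ) ∈ Zp p := by rw [one_div]; exact u4.2.2
  have m43 : (-4 / 3 : ℚ) ∈ Zp p := by rw [div_eq_mul_inv]; exact mul_mem (neg_mem u4.2.1) u3.2.2
  rw [← sum_range_reflect]
  have h1 : EQ p 2 (∑ k ∈ range n, ((2 * (n - 1 - k)).choose (n - 1 - k) : ℚ) * (-1 / 3) ^ (n - 1 - k) *
      sg p (n - 1 - k)) (∑ k ∈ range n,
      (-(p * (1 / (2 * k + 2)) * ((-4 / 3) ^ n * ((n.choose (k + 1) : ℚ) * (-3 / 4) ^ (k + 1)))))) :=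
    EQ.sum fun k hk => lowterm hpn h3 (mem_range.1 hk)
  refine h1.trans ?_
  have h2 := binlog (-3 / 4) n
  have e1 : ∑ k ∈ range n, (-((p : ℚ) * (1 / (2 * k + 2)) * ((-4 / 3) ^ n * ((n.choose (k + 1) : ℚ) *
      (-3 / 4) ^ (k + 1))))) = -(-4 / 3) ^ n * (∑ k ∈ range n, (p : ℚ) * (1 / (2 * k + 2)) * (1 / 4) ^ (k + 1) -
        ∑ k ∈ range n, (p : ℚ) * (1 / (2 * k + 2)) * 1 ^ (k + 1)) := by
    have e2 : ∑ k ∈ range n, (-((p : ℚ) * (1 / (2 * k + 2)) * ((-4 / 3) ^ n * ((n.choose (k + 1) : ℚ) *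
      (-3 / 4) ^ (k + 1))))) = -(-4 / 3) ^ n * (p / 2) *
        ∑ k ∈ range n, (n.choose (k + 1) : ℚ) * (-3 / 4) ^ (k + 1) / (k + 1) := by
      rw [mul_sum]
      refine sum_congr rfl fun k _ => ?_
      have : (k : ℚ) + 1 ≠ 0 := by positivity
      have : 2 * (k : ℚ) + 2 ≠ 0 := by positivity
      field_simp
    rw [e2, h2, ← sum_sub_distrib, mul_sum, mul_sum]
    refine sum_congr rfl fun k _ => ?_
    have h5 : (1 + -3 / 4 : ℚ) = 1 / 4 := by norm_num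
    have : (k : ℚ) + 1 ≠ 0 := by positivity
    have : 2 * (k : ℚ) + 2 ≠ 0 := by positivity
    rw [h5, one_pow]
    field_simp
  rw [e1]
  have h5 := (EQ.refl (k := 2) (neg_mem (pow_mem m43 n))).mul ((evsum (p := p) hpn m4).sub
    (evsum (p := p) hpn (one_mem _)))
  have e3 : -(-4 / 3 : ℚ) ^ n * (-(EV p (1 / 4) - 1) - -(EV p 1 - 1)) =
      (-4 / 3) ^ n * (EV p (1 / 4) - EV p 1) := by ring
  rwa [e3] at h5

/-- the terms with `i > n` -/
theorem highsum (hpn : p = 2 * n + 1) (h3 : 3 < p) {i : ℕ} (hi : n < i) (hip : i < p) :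
    I p 2 (((2 * i).choose i : ℚ) * (-1 / 3) ^ i * sg p i) := by
  have u3 : U p (3 : ℚ) := by
    have := U_nat (p := p) (k := 3) (by norm_num) h3
    exact_mod_cast this
  have m3 : (-1 / 3 : ℚ) ∈ Zp p := by rw [div_eq_mul_inv]; exact mul_mem (neg_mem (one_mem _)) u3.2.2
  have hu := two_add_one_U (p := p) (i := i) hpn hip (by omega)
  have h1 := sg_gg (p := p) (i := i) hip
  have a1 := hu.1
  have h2 : sg p i = p * (gg p i * (2 * (i : ℚ) + 1)⁻¹) := by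
    have : sg p i = ((2 * (i : ℚ) + 1) * sg p i) * (2 * (i : ℚ) + 1)⁻¹ := by field_simp
    rw [this, h1]; ring
  have h4 : I p 1 ((2 * i).choose i : ℚ) := by
    refine I_nat ?_
    have := Nat.Prime.dvd_choose_add hp.out (a := i) (b := i) hip hip (by omega)
    rwa [← two_mul] at this
  rw [h2]
  have h5 : I p 1 ((p : ℚ) * (gg p i * (2 * (i : ℚ) + 1)⁻¹)) :=
    (I_p (p := p)).mulR (mul_mem (gg_eq (p := p) (i := i) hpn h3 hip).1 hu.2.2)
  exact (h4.mulR (pow_mem m3 i)).mul h5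


theorem S1_eq (p : ℕ) : ∑ j ∈ range p, (T j 1 1 : ℚ) * ((2 * j).choose j : ℚ) / 12 ^ j =
    ∑ i ∈ range p, ((2 * i).choose i : ℚ) * (-1 / 3) ^ i * sg p i := by
  have h1 : ∀ j ∈ range p, (T j 1 1 : ℚ) * ((2 * j).choose j : ℚ) / 12 ^ j =
      ∑ i ∈ range p, ((2 * i).choose i : ℚ) * (-1 / 3) ^ i *
        (((2 * j).choose j : ℚ) * (j.choose i : ℚ) / 4 ^ j) := by
    intro j hj
    have hj' := mem_range.1 hj
    have h2 : (T j 1 1 : ℚ) = 3 ^ j * ∑ i ∈ range p, ((2 * i).choose i : ℚ) * (-1 / 3) ^ i * (j.choose i : ℚ) := by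
      rw [T11]
      push_cast
      rw [← sum_subset (range_subset_range.2 (show j + 1 ≤ p by omega)), mul_sum]
      · refine sum_congr rfl fun i hi => ?_
        have hi' := mem_range.1 hi
        obtain ⟨r, hr⟩ : ∃ r, j = i + r := ⟨j - i, by omega⟩
        have e1 : j - i = r := by omega
        have e2 : (3 : ℚ) ^ j * (-1 / 3) ^ i = 3 ^ r * (-1) ^ i := by
          rw [hr, pow_add, div_pow]
          field_simp
        rw [e1]
        linear_combination (-((2 * i).choose i : ℚ) * (j.choose i : ℚ)) * e2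
      · intro i _ hi
        rw [Nat.choose_eq_zero_of_lt (show j < i by
          have := mt mem_range.2 hi; omega)]
        simp
    have e3 : (12 : ℚ) ^ j = 3 ^ j * 4 ^ j := by rw [← mul_pow]; norm_num
    rw [h2, e3, mul_sum, sum_mul, sum_div]
    refine sum_congr rfl fun i _ => ?_
    field_simp
  rw [sum_congr rfl h1, sum_comm]
  exact sum_congr rfl fun i _ => by rw [sg, mul_sum]

/-- the first congruence -/
theorem c1 (hv : StmtVal) (hpn : p = 2 * n + 1) (h3 : 3 < p) : EQ p 2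
    (∑ j ∈ range p, (T j 1 1 : ℚ) * ((2 * j).choose j : ℚ) / 12 ^ j) ((3 + 3 ^ (p - 1)) / 4 * s3 p) := by
  have u3 : U p (3 : ℚ) := by
    have := U_nat (p := p) (k := 3) (by norm_num) h3
    exact_mod_cast this
  have u4 : U p (4 : ℚ) := by have := four_U (p := p) h3 1; rwa [pow_one] at this
  have m3 : (-1 / 3 : ℚ) ∈ Zp p := by rw [div_eq_mul_inv]; exact mul_mem (neg_mem (one_mem _)) u3.2.2
  obtain ⟨t, ht⟩ : ∃ t : ℚ, t = (-3) ^ n := ⟨_, rfl⟩
  have ut : U p t := by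
    rw [ht, neg_pow]
    have um : U p ((-1 : ℚ) ^ n) := ⟨pow_ne_zero _ (by norm_num), neg_mem' n, by
      rw [← inv_pow, inv_neg, inv_one]; exact neg_mem' n⟩
    exact um.mul (u3.pow n)
  have ms : s3 p ∈ Zp p := V.s3_mem
  have hs : s3 p * s3 p = 1 := by rw [s3]; split_ifs <;> norm_num
  -- the sum
  rw [S1_eq]
  set F : ℕ → ℚ := fun i => ((2 * i).choose i : ℚ) * (-1 / 3) ^ i * sg p i with hF
  have h1 : ∑ i ∈ range p, F i = ∑ i ∈ range n, F i + (∑ i ∈ range n, F (n + (i + 1)) + F n) := by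
    conv_lhs => rw [show range p = range (n + (n + 1)) by rw [hpn]; congr 1; omega]
    rw [sum_range_add, sum_range_succ']
    rfl
  have h2 : EQ p 2 (∑ i ∈ range n, F (n + (i + 1))) 0 :=
    EQ.of_I (I.sum fun i hi => highsum hpn h3 (by omega) (by have := mem_range.1 hi; omega))
  have h4 : EQ p 2 (F n) ((-16) ^ n * (-1 / 3) ^ n * (-1) ^ n) := by
    have := ((halfc (p := p) hpn (le_refl n)).mul (EQ.refl (k := 2) (pow_mem m3 n))).mul (sg_mid hv hpn h3)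
    rw [← two_mul, Nat.choose_self, Nat.cast_one, mul_one] at this
    exact this
  have h5 := (lowsum (p := p) hpn h3).add (h2.add h4)
  rw [h1]
  -- evaluate
  have a2 : (4 : ℚ) ^ n ≠ 0 := by positivity
  have e1 : EV p 1 = 4 ^ n := by
    have := (V.at_one (2 * n)).1
    rw [← hpn] at this
    rw [this, pow_mul]; norm_num
  have t2 : t * t = 9 ^ n := by rw [ht, ← mul_pow]; norm_num
  have e2 : EV p (1 / 4) = (3 * (t * t) + 1) / (4 * 4 ^ n) := by
    rw [(at_quarter p).1, t2, div_pow, div_pow, one_pow]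
    have b1 : (3 : ℚ) ^ p = 3 * 9 ^ n := by rw [hpn, pow_succ, pow_mul]; norm_num; ring
    have b2 : (2 : ℚ) ^ p = 2 * 4 ^ n := by rw [hpn, pow_succ, pow_mul]; norm_num; ring
    rw [b1, b2]
    field_simp
    ring
  have e3 : (-4 / 3 : ℚ) ^ n = 4 ^ n / t := by rw [ht, ← div_pow]; norm_num
  have e4 : (-16 : ℚ) ^ n * (-1 / 3) ^ n * (-1) ^ n = (4 ^ n * 4 ^ n) / t := by
    rw [ht, ← mul_pow, ← mul_pow, ← mul_pow, ← div_pow]; norm_num
  have e5 : (-4 / 3 : ℚ) ^ n * (EV p (1 / 4) - EV p 1) + (0 + (-16) ^ n * (-1 / 3) ^ n * (-1) ^ n) =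
      (3 * (t * t) + 1) * (4 : ℚ)⁻¹ * t⁻¹ := by
    rw [e3, e4, e1, e2]
    have := ut.1
    field_simp
    ring
  rw [e5] at h5
  refine h5.trans ?_
  have e6 : (3 : ℚ) ^ (p - 1) = t * t := by
    rw [t2, hpn, Nat.add_sub_cancel, pow_mul]; norm_num
  rw [e6]
  have mt := ut.2.1
  have h6 := (hv p n hpn h3).2.2.2.2
  rw [← ht] at h6
  have h7 : I p 1 (s3 p * t - 1) := by
    have := h6.2.2.mulL ms
    have e : s3 p * (t - s3 p) = s3 p * t - 1 := by rw [mul_sub, hs]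
    rwa [e] at this
  refine ⟨h5.2.1, ?_, ?_⟩
  · rw [div_eq_mul_inv]
    exact mul_mem (mul_mem (add_mem u3.2.1 (mul_mem mt mt)) u4.2.2) ms
  · have e7 : (3 * (t * t) + 1) * (4 : ℚ)⁻¹ * t⁻¹ - (3 + t * t) / 4 * s3 p =
        (s3 p * t - 1) * (s3 p * t - 1) * (-(s3 p * t - 1) * (4 : ℚ)⁻¹ * t⁻¹) := by
      have := ut.1
      field_simp
      linear_combination (t ^ 3 * s3 p - 3 * t ^ 2) * hs
    rw [e7]
    exact (h7.mul h7).mulR (mul_mem (mul_mem (neg_mem h7.mem) u4.2.2) ut.2.2)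

end Pool.Agent.R488.Tri
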